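import Mathlib

/-!
# Neat subgroups
-/

set_option autoImplicit false
set_option linter.unusedSectionVars false

namespace Pool.Agent.E8helper1.CT

open Module

/-- The group preserves a lattice (the integral Tate module): in some basis it acts by matrices with
coefficients in `ℤ_ℓ`. -/
def HasLattice (ℓ : ℕ) [Fact ℓ.Prime] {V Γ : Type} [AddCommGroup V] [Module ℚ_[ℓ] V] [Group Γ]
    (ρ : Representation ℚ_[ℓ] Γ V) : Prop :=
  ∃ (d : ℕ) (b : Basis (Fin d) ℚ_[ℓ] V), ∀ s i j, ‖b.repr (ρ s (b j)) i‖ ≤ 1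

noncomputable section

variable {ℓ : ℕ} [hℓ : Fact ℓ.Prime] {d : ℕ}

/-- The entries are bounded. -/
def Bd (A : Matrix (Fin d) (Fin d) ℚ_[ℓ]) (c : ℝ) : Prop := ∀ i j, ‖A i j‖ ≤ c

theorem Bd.mul {A B : Matrix (Fin d) (Fin d) ℚ_[ℓ]} {a c : ℝ} (hA : Bd A a) (hB : Bd B c)
    (ha : 0 ≤ a) (hc : 0 ≤ c) : Bd (A * B) (a * c) := by
  intro i j
  rw [Matrix.mul_apply]
  refine IsUltrametricDist.norm_sum_le_of_forall_le_of_nonneg (mul_nonneg ha hc) fun k _ => ?_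
  rw [norm_mul]
  exact mul_le_mul (hA i k) (hB k j) (norm_nonneg _) ha

theorem Bd.add {A B : Matrix (Fin d) (Fin d) ℚ_[ℓ]} {a : ℝ} (hA : Bd A a) (hB : Bd B a) :
    Bd (A + B) a := by
  intro i j
  rw [Matrix.add_apply]
  exact (IsUltrametricDist.norm_add_le_max _ _).trans (max_le (hA i j) (hB i j))

theorem Bd.mono {A : Matrix (Fin d) (Fin d) ℚ_[ℓ]} {a c : ℝ} (hA : Bd A a) (h : a ≤ c) : Bd A c :=
  fun i j => (hA i j).trans h

theorem Bd.one : Bd (1 : Matrix (Fin d) (Fin d) ℚ_[ℓ]) 1 := by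
  intro i j
  by_cases h : i = j
  · rw [h, Matrix.one_apply_eq, norm_one]
  · rw [Matrix.one_apply_ne h, norm_zero]
    exact zero_le_one

theorem Bd.smul {A : Matrix (Fin d) (Fin d) ℚ_[ℓ]} {a : ℝ} (hA : Bd A a) (n : ℕ) :
    Bd ((n : ℚ_[ℓ]) • A) a := by
  intro i j
  rw [Matrix.smul_apply, smul_eq_mul, norm_mul]
  have h1 : ‖(n : ℚ_[ℓ])‖ ≤ 1 := by
    have := Padic.norm_int_le_one (p := ℓ) (n : ℤ)
    rwa [Int.cast_natCast] at this
  calc ‖(n : ℚ_[ℓ])‖ * ‖A i j‖ ≤ 1 * a := mul_le_mul h1 (hA i j) (norm_nonneg _) zero_le_one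
    _ = a := one_mul a

/-- The radius. -/
def rad (ℓ : ℕ) : ℝ := ((ℓ : ℝ) ^ 2)⁻¹

theorem rad_nonneg : 0 ≤ rad ℓ := by
  unfold rad
  positivity

theorem rad_le_one : rad ℓ ≤ 1 := by
  unfold rad
  refine inv_le_one_of_one_le₀ (one_le_pow₀ ?_)
  exact_mod_cast hℓ.1.one_lt.le

theorem bd_of_sub {A : Matrix (Fin d) (Fin d) ℚ_[ℓ]} (hA : Bd (A - 1) (rad ℓ)) : Bd A 1 := by
  have h1 := (hA.mono rad_le_one).add Bd.one
  rwa [sub_add_cancel] at h1

theorem bd_pow {A : Matrix (Fin d) (Fin d) ℚ_[ℓ]} (hA : Bd (A - 1) (rad ℓ)) (n : ℕ) :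
    Bd (A ^ n - 1) (rad ℓ) := by
  induction n with
  | zero =>
    rw [pow_zero, sub_self]
    intro i j
    rw [Matrix.zero_apply, norm_zero]
    exact rad_nonneg
  | succ n ih =>
    have h1 : A ^ (n + 1) - 1 = A ^ n * (A - 1) + (A ^ n - 1) := by
      rw [pow_succ, mul_sub, mul_one, sub_add_sub_cancel]
    rw [h1]
    refine Bd.add ?_ ih
    have h2 := (bd_of_sub ih).mul hA zero_le_one rad_nonneg
    rwa [one_mul] at h2

/-- The commutator with a power. -/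
theorem bd_comm {A M : Matrix (Fin d) (Fin d) ℚ_[ℓ]} (hA : Bd (A - 1) (rad ℓ)) {W : ℝ}
    (hW0 : 0 ≤ W) (hW : Bd (M * A - A * M) W) (n : ℕ) :
    Bd (M * A ^ n - A ^ n * M - (n : ℚ_[ℓ]) • (M * A - A * M)) (rad ℓ * W) := by
  have h0 : 0 ≤ rad ℓ * W := mul_nonneg rad_nonneg hW0
  induction n with
  | zero =>
    rw [pow_zero, mul_one, one_mul, sub_self, Nat.cast_zero, zero_smul, sub_self]
    intro i j
    rw [Matrix.zero_apply, norm_zero]
    exact h0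
  | succ n ih =>
    obtain ⟨w, hw⟩ : ∃ w, w = M * A - A * M := ⟨_, rfl⟩
    rw [← hw] at hW ih ⊢
    obtain ⟨E, hE⟩ : ∃ E, E = M * A ^ n - A ^ n * M - (n : ℚ_[ℓ]) • w := ⟨_, rfl⟩
    rw [← hE] at ih
    have h1 : M * A ^ (n + 1) - A ^ (n + 1) * M - ((n + 1 : ℕ) : ℚ_[ℓ]) • w =
        (n : ℚ_[ℓ]) • (w * (A - 1)) + E * A + (A ^ n - 1) * w := by
      have h2 : M * A ^ n = E + (n : ℚ_[ℓ]) • w + A ^ n * M := by
        rw [hE]
        abel
      have h3 : M * A ^ (n + 1) - A ^ (n + 1) * M = (M * A ^ n - A ^ n * M) * A + A ^ n * w := by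
        rw [hw, pow_succ]
        noncomm_ring
      rw [h3, h2, Nat.cast_add, Nat.cast_one, add_smul, one_smul]
      have h4 : E + (n : ℚ_[ℓ]) • w + A ^ n * M - A ^ n * M = E + (n : ℚ_[ℓ]) • w := by abel
      rw [h4, add_mul, smul_mul_assoc, mul_sub, mul_one, smul_sub, sub_mul, one_mul]
      abel
    rw [h1]
    refine ((Bd.smul ?_ n).add ?_).add ?_
    · have := hW.mul hA hW0 rad_nonneg
      rwa [mul_comm] at this
    · have := ih.mul (bd_of_sub hA) h0 zero_le_one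
      rwa [mul_one] at this
    · exact (bd_pow hA n).mul hW rad_nonneg hW0

/-- A matrix that commutes with a prime power commutes. -/
theorem comm_prime {A M : Matrix (Fin d) (Fin d) ℚ_[ℓ]} (hA : Bd (A - 1) (rad ℓ)) {q : ℕ}
    (hq : q.Prime) (h : M * A ^ q = A ^ q * M) : M * A = A * M := by
  rw [← sub_eq_zero]
  obtain ⟨w, hw⟩ : ∃ w, w = M * A - A * M := ⟨_, rfl⟩
  rw [← hw]
  rcases isEmpty_or_nonempty (Fin d) with hd | hd
  · ext i j
    exact (hd.false i).elim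
  obtain ⟨⟨i0, j0⟩, hmax⟩ := Finite.exists_max (fun l : Fin d × Fin d => ‖w l.1 l.2‖)
  have hbd : Bd w ‖w i0 j0‖ := fun i j => hmax (i, j)
  have h1 := bd_comm hA (norm_nonneg _) (M := M) (by rw [← hw]; exact hbd) q
  rw [← hw, h, sub_self, zero_sub] at h1
  have h2 := h1 i0 j0
  rw [Matrix.neg_apply, norm_neg, Matrix.smul_apply, smul_eq_mul, norm_mul] at h2
  have hl : (1 : ℝ) < ℓ := by exact_mod_cast hℓ.1.one_lt
  have hq1 : (ℓ : ℝ)⁻¹ ≤ ‖(q : ℚ_[ℓ])‖ := by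
    by_cases hql : q = ℓ
    · rw [hql, Padic.norm_p]
    · rw [Padic.norm_natCast_eq_one_iff.2
        ((Nat.coprime_primes hℓ.1 hq).2 (Ne.symm hql))]
      exact inv_le_one_of_one_le₀ hl.le
  have h3 : w i0 j0 = 0 := by
    by_contra hne
    have h4 : 0 < ‖w i0 j0‖ := norm_pos_iff.2 hne
    have h5 : ‖(q : ℚ_[ℓ])‖ ≤ rad ℓ := le_of_mul_le_mul_right h2 h4
    have h6 : (ℓ : ℝ)⁻¹ ≤ ((ℓ : ℝ) ^ 2)⁻¹ := hq1.trans h5
    have h7 : ((ℓ : ℝ) ^ 2)⁻¹ < (ℓ : ℝ)⁻¹ := by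
      rw [inv_lt_inv₀ (by positivity) (by positivity)]
      nlinarith
    exact absurd h6 (not_le.2 h7)
  ext i j
  have h4 := hbd i j
  rw [h3, norm_zero] at h4
  rw [Matrix.zero_apply]
  exact norm_le_zero_iff.1 h4

theorem comm_of_pow {M : Matrix (Fin d) (Fin d) ℚ_[ℓ]} (j : ℕ) :
    ∀ A : Matrix (Fin d) (Fin d) ℚ_[ℓ], Bd (A - 1) (rad ℓ) → 0 < j → M * A ^ j = A ^ j * M →
      M * A = A * M := by
  induction j using Nat.strong_induction_on with
  | _ j ih =>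
    intro A hA hj h
    by_cases h1 : j = 1
    · rwa [h1, pow_one] at h
    obtain ⟨i, hi⟩ := Nat.minFac_dvd j
    have hp := Nat.minFac_prime h1
    have hi0 : 0 < i := by
      rcases Nat.eq_zero_or_pos i with h0 | h0
      · rw [h0, mul_zero] at hi
        omega
      · exact h0
    have hij : i < j := by
      have h2 := hp.two_le
      nlinarith
    refine ih i hij A hA hi0 ?_
    refine comm_prime (bd_pow hA i) hp ?_
    rw [← pow_mul, mul_comm i, ← hi]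
    exact h

variable {V Γ : Type} [AddCommGroup V] [Module ℚ_[ℓ] V] [Group Γ] {ρ : Representation ℚ_[ℓ] Γ V}

/-- **Neat subgroups.** -/
theorem exists_neat (h : HasLattice ℓ ρ) : ∃ Δ : Subgroup Γ, Δ.FiniteIndex ∧ ∀ g ∈ Δ,
    ∀ (m : Module.End ℚ_[ℓ] V) (j : ℕ), 0 < j → m * (ρ g) ^ j = (ρ g) ^ j * m →
      m * ρ g = ρ g * m := by
  classical
  obtain ⟨d, b, hb⟩ := h
  -- the integral matrices
  let N : Γ → Matrix (Fin d) (Fin d) ℤ_[ℓ] := fun s i j => ⟨b.repr (ρ s (b j)) i, hb s i j⟩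
  have hN : ∀ s, (N s).map (fun x : ℤ_[ℓ] => (x : ℚ_[ℓ])) = LinearMap.toMatrix b b (ρ s) := by
    intro s
    ext i j
    rw [LinearMap.toMatrix_apply]
    rfl
  have hinj : Function.Injective (fun A : Matrix (Fin d) (Fin d) ℤ_[ℓ] =>
      A.map (fun x : ℤ_[ℓ] => (x : ℚ_[ℓ]))) := by
    intro A B hAB
    ext i j
    exact Subtype.ext (congrArg (fun C : Matrix (Fin d) (Fin d) ℚ_[ℓ] => C i j) hAB)
  have hmulmap : ∀ A B : Matrix (Fin d) (Fin d) ℤ_[ℓ],
      (A * B).map (fun x : ℤ_[ℓ] => (x : ℚ_[ℓ])) =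
      A.map (fun x : ℤ_[ℓ] => (x : ℚ_[ℓ])) * B.map (fun x : ℤ_[ℓ] => (x : ℚ_[ℓ])) := by
    intro A B
    exact Matrix.map_mul (f := PadicInt.Coe.ringHom)
  let Nh : Γ →* Matrix (Fin d) (Fin d) ℤ_[ℓ] :=
    { toFun := N
      map_one' := by
        apply hinj
        change (N 1).map _ = Matrix.map 1 _
        rw [hN, map_one, LinearMap.toMatrix_one]
        exact (Matrix.map_one (fun x : ℤ_[ℓ] => (x : ℚ_[ℓ])) PadicInt.coe_zero
          PadicInt.coe_one).symm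
      map_mul' := by
        intro s t
        apply hinj
        change (N (s * t)).map _ = (N s * N t).map _
        rw [hmulmap, hN, hN, hN, map_mul, LinearMap.toMatrix_mul] }
  let F : Γ →* Matrix (Fin d) (Fin d) (ZMod (ℓ ^ 2)) :=
    ((PadicInt.toZModPow 2).mapMatrix : Matrix (Fin d) (Fin d) ℤ_[ℓ] →+*
      Matrix (Fin d) (Fin d) (ZMod (ℓ ^ 2))).toMonoidHom.comp Nh
  have hne : NeZero (ℓ ^ 2) := ⟨pow_ne_zero _ hℓ.1.ne_zero⟩
  refine ⟨(MonoidHom.toHomUnits F).ker, Subgroup.finiteIndex_ker _, fun g hg m j hj hm => ?_⟩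
  have h1 : F g = 1 := by
    rw [MonoidHom.mem_ker] at hg
    exact congrArg Units.val hg
  have h2 : Bd (LinearMap.toMatrix b b (ρ g) - 1) (rad ℓ) := by
    intro i j
    have h3 : PadicInt.toZModPow 2 (N g i j) = (1 : Matrix (Fin d) (Fin d) (ZMod (ℓ ^ 2))) i j :=
      congrArg (fun C : Matrix (Fin d) (Fin d) (ZMod (ℓ ^ 2)) => C i j) h1
    have h4 : PadicInt.toZModPow 2 (N g i j - (1 : Matrix (Fin d) (Fin d) ℤ_[ℓ]) i j) = 0 := by
      rw [map_sub, h3]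
      by_cases hij : i = j
      · rw [hij, Matrix.one_apply_eq, Matrix.one_apply_eq, map_one, sub_self]
      · rw [Matrix.one_apply_ne hij, Matrix.one_apply_ne hij, map_zero, sub_self]
    have h5 : N g i j - (1 : Matrix (Fin d) (Fin d) ℤ_[ℓ]) i j ∈
        Ideal.span {(ℓ : ℤ_[ℓ]) ^ 2} := by
      rw [← PadicInt.ker_toZModPow]
      exact h4
    rw [← PadicInt.norm_le_pow_iff_mem_span_pow] at h5
    have h6 : ((N g i j - (1 : Matrix (Fin d) (Fin d) ℤ_[ℓ]) i j : ℤ_[ℓ]) : ℚ_[ℓ]) =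
        (LinearMap.toMatrix b b (ρ g) - 1) i j := by
      rw [Matrix.sub_apply, ← hN, PadicInt.coe_sub, Matrix.map_apply]
      congr 1
      by_cases hij : i = j
      · rw [hij, Matrix.one_apply_eq, Matrix.one_apply_eq, PadicInt.coe_one]
      · rw [Matrix.one_apply_ne hij, Matrix.one_apply_ne hij, PadicInt.coe_zero]
    rw [← h6]
    unfold rad
    rw [zpow_neg] at h5
    exact_mod_cast h5
  have h3 := comm_of_pow (M := LinearMap.toMatrix b b m) j _ h2 hj (by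
    have h4 := congrArg (LinearMap.toMatrix b b) hm
    have h5 : LinearMap.toMatrix b b ((ρ g) ^ j) = (LinearMap.toMatrix b b (ρ g)) ^ j := by
      have := map_pow (LinearMap.toMatrixAlgEquiv b) (ρ g) j
      exact this
    rw [LinearMap.toMatrix_mul, LinearMap.toMatrix_mul, h5] at h4
    exact h4)
  apply (LinearMap.toMatrix b b).injective
  rw [LinearMap.toMatrix_mul, LinearMap.toMatrix_mul]
  exact h3

end

end Pool.Agent.E8helper1.CT
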