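import Mathlib
import Pool.Agent.E8helper1.AP.Slope

/-!
# Functions of the semisimple part of an operator
-/

set_option autoImplicit false
set_option linter.unusedSectionVars false

namespace Pool.Agent.E8helper1.CT

open Module Pool.Agent.H204R3.SP Pool.Agent.H204R3.GP Pool.Agent.W522.U Pool.Agent.TH118.CR
open Pool.Agent.E8helper1.AP (Jb)

noncomputable section

variable {K : Type} [Field K] {X : Type} [AddCommGroup X] [Module K X]

/-- A form killed by an operator vanishes on generalized eigenvectors such that the sum of the
eigenvalues is not zero. -/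
theorem dvanish {κ : Type} [Fintype κ] [DecidableEq κ] {x : Module.End K X}
    {φ : MultilinearMap K (fun _ : κ => X) K} (hφ : Kills x φ)
    (lam : κ → K) (hlam : ∑ k, lam k ≠ 0) (N : ℕ) :
    ∀ (n : κ → ℕ), ∑ k, n k = N → ∀ v : κ → X,
      (∀ k, ((x - lam k • (1 : Module.End K X)) ^ n k) (v k) = 0) → φ v = 0 := by
  induction N using Nat.strong_induction_on with
  | _ N ih =>
    intro n hn v hv
    have h2 := hφ v
    have h3 : ∀ k, φ (Function.update v k (x (v k))) = lam k * φ v := by
      intro k
      have h4 : x (v k) = lam k • v k + (x - lam k • (1 : Module.End K X)) (v k) := by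
        rw [LinearMap.sub_apply, LinearMap.smul_apply, Module.End.one_apply]
        abel
      rw [h4, MultilinearMap.map_update_add, MultilinearMap.map_update_smul,
        Function.update_eq_self, smul_eq_mul]
      have h5 : φ (Function.update v k ((x - lam k • (1 : Module.End K X)) (v k))) = 0 := by
        by_cases h0 : n k = 0
        · have h6 : v k = 0 := by
            have := hv k
            rwa [h0, pow_zero, Module.End.one_apply] at this
          refine φ.map_coord_zero k ?_
          rw [Function.update_self, h6, map_zero]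
        · refine ih (∑ l, (if l = k then n l - 1 else n l)) ?_ _ rfl _ fun l => ?_
          · rw [← hn]
            refine Finset.sum_lt_sum (fun l _ => ?_) ⟨k, Finset.mem_univ _, ?_⟩
            · split_ifs <;> omega
            · rw [if_pos rfl]
              omega
          · by_cases hl : l = k
            · subst hl
              rw [if_pos rfl, Function.update_self, ← Module.End.mul_apply, ← pow_succ]
              have h5 : n l - 1 + 1 = n l := by omega
              rw [h5, hv]
            · rw [if_neg hl, Function.update_of_ne hl]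
              exact hv l
      rw [h5, add_zero]
    rw [Finset.sum_congr rfl fun k _ => h3 k, ← Finset.sum_mul] at h2
    exact (mul_eq_zero.1 h2).resolve_left hlam

theorem dvanish' {κ : Type} [Fintype κ] [DecidableEq κ] {x : Module.End K X}
    {φ : MultilinearMap K (fun _ : κ => X) K} (hφ : Kills x φ)
    (lam : κ → K) (v : κ → X) (hv : ∀ k, v k ∈ x.maxGenEigenspace (lam k)) (h0 : φ v ≠ 0) :
    ∑ k, lam k = 0 := by
  by_contra hlam
  choose n hn using fun k => (Module.End.mem_maxGenEigenspace _ _ _).1 (hv k)
  exact h0 (dvanish hφ lam hlam _ n rfl v hn)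

variable [CharZero K]

/-- The functions of the semisimple part kill the forms. -/
theorem replica {κ : Type} [Fintype κ] [DecidableEq κ] {x : Module.End K X} (J : Jb x)
    {φ : MultilinearMap K (fun _ : κ => X) K} (hφ : Kills x φ) (f : K →+ K) :
    Kills (J.op (fun c => f c • 1)) φ := by
  have _ := J.fι
  have _ := J.dι
  refine kills_of_basis J.e _ _ fun I => ?_
  have h1 : ∀ l : κ, φ (Function.update (fun l => J.e (I l)) l
      (J.op (fun c => f c • 1) (J.e (I l)))) = f (J.lam (I l)) * φ (fun l => J.e (I l)) := by
    intro l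
    rw [J.op_on _ (J.mem (I l)), LinearMap.smul_apply, Module.End.one_apply,
      MultilinearMap.map_update_smul, smul_eq_mul, Function.update_eq_self]
  rw [Finset.sum_congr rfl fun l _ => h1 l, ← Finset.sum_mul]
  by_cases h0 : φ (fun l => J.e (I l)) = 0
  · rw [h0, mul_zero]
  have h2 := dvanish' hφ (fun l => J.lam (I l)) _ (fun l => J.mem (I l)) h0
  rw [← map_sum, h2, map_zero, zero_mul]

variable [FiniteDimensional K X]

/-- The nilpotent part. -/
theorem nil_part {x : Module.End K X} (J : Jb x) (F : K → K) (k : ℕ) (p : J.ι) :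
    (((x - J.op (fun c => c • 1)) * J.op (fun c => F c • 1)) ^ k) (J.e p) =
      (F (J.lam p)) ^ k • ((x - J.lam p • (1 : Module.End K X)) ^ k) (J.e p) := by
  have h1 : ∀ v ∈ x.maxGenEigenspace (J.lam p),
      ((x - J.op (fun c => c • 1)) * J.op (fun c => F c • 1)) v =
      F (J.lam p) • (x - J.lam p • (1 : Module.End K X)) v := by
    intro v hv
    rw [Module.End.mul_apply, J.op_on _ hv, LinearMap.smul_apply, Module.End.one_apply, map_smul,
      LinearMap.sub_apply, J.op_on _ hv, LinearMap.sub_apply]
  have h2 : ∀ (k : ℕ), ∀ v ∈ x.maxGenEigenspace (J.lam p),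
      (((x - J.op (fun c => c • 1)) * J.op (fun c => F c • 1)) ^ k) v =
      (F (J.lam p)) ^ k • ((x - J.lam p • (1 : Module.End K X)) ^ k) v := by
    intro k
    induction k with
    | zero => intro v _; rw [pow_zero, pow_zero, pow_zero, one_smul]
    | succ k ih =>
      intro v hv
      rw [pow_succ, Module.End.mul_apply, h1 v hv, map_smul,
        ih _ (Pool.Agent.E8helper1.AP.stable_gen hv), ← Module.End.mul_apply, ← pow_succ,
        smul_smul, ← pow_succ']
  exact h2 k _ (J.mem p)

theorem nil_part' {x : Module.End K X} (J : Jb x) (F : K → K) :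
    IsNilpotent ((x - J.op (fun c => c • 1)) * J.op (fun c => F c • 1)) := by
  refine ⟨finrank K X, J.e.ext fun p => ?_⟩
  rw [nil_part]
  have h1 := J.mem p
  rw [Module.End.maxGenEigenspace_eq_genEigenspace_finrank, Module.End.mem_genEigenspace_nat,
    LinearMap.mem_ker] at h1
  rw [h1, smul_zero, LinearMap.zero_apply]

/-- The trace of the product with a function of the semisimple part. -/
theorem trace_op {x : Module.End K X} (J : Jb x) (F : K → K) :
    let _ := J.fι
    LinearMap.trace K X (x * J.op (fun c => F c • 1)) = ∑ p, J.lam p * F (J.lam p) := by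
  intro _
  have _ := J.dι
  have h1 : x * J.op (fun c => F c • 1) = (x - J.op (fun c => c • 1)) * J.op (fun c => F c • 1) +
      J.op (fun c => c • 1) * J.op (fun c => F c • 1) := by
    rw [sub_mul, sub_add_cancel]
  have h2 : LinearMap.trace K X ((x - J.op (fun c => c • 1)) * J.op (fun c => F c • 1)) = 0 :=
    (LinearMap.isNilpotent_trace_of_isNilpotent (nil_part' J F)).eq_zero
  rw [h1, map_add, h2, zero_add, LinearMap.trace_eq_matrix_trace K J.e, Matrix.trace]
  refine Finset.sum_congr rfl fun p _ => ?_
  rw [Matrix.diag_apply, LinearMap.toMatrix_apply, Module.End.mul_apply, J.op_on _ (J.mem p),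
    LinearMap.smul_apply, Module.End.one_apply, map_smul, J.op_on _ (J.mem p),
    LinearMap.smul_apply, Module.End.one_apply, smul_smul, map_smul, Finsupp.smul_apply,
    Basis.repr_self, Finsupp.single_eq_same, smul_eq_mul, mul_one, mul_comm]

/-- An operator whose eigenvalues vanish is nilpotent. -/
theorem nil_of_lam {x : Module.End K X} (J : Jb x) (h : ∀ p, J.lam p = 0) : IsNilpotent x := by
  have h1 : J.op (fun c => c • 1) = 0 := by
    refine J.e.ext fun p => ?_
    rw [J.op_on _ (J.mem p), h p, zero_smul]
  have h2 : J.op (fun _ => (1 : K) • 1) = 1 := by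
    refine J.e.ext fun p => ?_
    rw [J.op_on _ (J.mem p), one_smul]
  have h3 := nil_part' J (fun _ => 1)
  rw [h1, h2, sub_zero, mul_one] at h3
  exact h3

/-- **Cartan's criterion.** If the trace of the products of `x` with the rational functionals of its
semisimple part vanish, `x` is nilpotent. -/
theorem cartan {x : Module.End K X} (J : Jb x)
    (h : ∀ f : K →+ ℚ, LinearMap.trace K X (x * J.op (fun c => (f c : K) • 1)) = 0) :
    IsNilpotent x := by
  let _ := J.fι
  have hQ : ∀ f : K →ₗ[ℚ] ℚ, ∀ p, f (J.lam p) = 0 := by
    intro f p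
    have h1 := h f.toAddMonoidHom
    rw [trace_op J (fun c => (f.toAddMonoidHom c : K))] at h1
    have h2 := congrArg f h1
    rw [map_zero] at h2
    have h3 : ∀ p, J.lam p * ((f.toAddMonoidHom (J.lam p) : ℚ) : K) =
        f (J.lam p) • J.lam p := by
      intro p
      rw [Rat.smul_def, mul_comm]
      rfl
    have h4 : (∑ p, f (J.lam p) * f (J.lam p)) = 0 := by
      rw [← h2, map_sum]
      refine Finset.sum_congr rfl fun p _ => ?_
      rw [h3, map_smul, smul_eq_mul]
    have h5 := (Finset.sum_eq_zero_iff_of_nonneg (fun p _ => mul_self_nonneg (f (J.lam p)))).1 h4 p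
      (Finset.mem_univ _)
    exact mul_self_eq_zero.1 h5
  refine nil_of_lam J fun p => ?_
  rw [← Module.forall_dual_apply_eq_zero_iff ℚ (J.lam p)]
  exact fun f => hQ f p

end

end Pool.Agent.E8helper1.CT
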