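import Mathlib
import Pool.Agent.E8helper1.CT.Rep
import Pool.Agent.E8helper1.AP.Base

/-!
# Components of operators after an extension of scalars
-/

set_option autoImplicit false
set_option linter.unusedSectionVars false

namespace Pool.Agent.E8helper1.CT

open Module TensorProduct Pool.Agent.H204R3.SP Pool.Agent.H204R3.GP Pool.Agent.W522.U
open Pool.Agent.E8helper1.AP (Jb ext_one)

noncomputable section

variable {k Ω : Type} [Field k] [CharZero k] [Field Ω] [CharZero Ω] [Algebra k Ω]
  {V : Type} [AddCommGroup V] [Module k V] [FiniteDimensional k V]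
  {β : Type} [DecidableEq β]

/-- The components of an operator. -/
def oc (w : Basis β k Ω) (y : Module.End Ω (Ω ⊗[k] V)) (i : β) : Module.End k V :=
  (Finsupp.lapply i).comp ((TensorProduct.equivFinsuppOfBasisLeft w).toLinearMap.comp
    ((y.restrictScalars k).comp (TensorProduct.mk k Ω V 1)))

theorem oc_apply (w : Basis β k Ω) (y : Module.End Ω (Ω ⊗[k] V)) (i : β) (v : V) :
    oc w y i v = TensorProduct.equivFinsuppOfBasisLeft w (y ((1 : Ω) ⊗ₜ[k] v)) i := rfl

theorem exists_oc (w : Basis β k Ω) (y : Module.End Ω (Ω ⊗[k] V)) :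
    ∃ F : Finset β, (∀ i, i ∉ F → oc w y i = 0) ∧
      y = ∑ i ∈ F, w i • (oc w y i).baseChange Ω := by
  classical
  let b := Module.finBasis k V
  let F : Finset β := Finset.univ.biUnion (fun j : Fin (finrank k V) =>
    (TensorProduct.equivFinsuppOfBasisLeft w (y ((1 : Ω) ⊗ₜ[k] b j))).support)
  have hF : ∀ i, i ∉ F → oc w y i = 0 := by
    intro i hi
    refine b.ext fun j => ?_
    rw [oc_apply, LinearMap.zero_apply]
    by_contra hne
    exact hi (Finset.mem_biUnion.2 ⟨j, Finset.mem_univ _, Finsupp.mem_support_iff.2 hne⟩)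
  refine ⟨F, hF, ?_⟩
  refine (b.baseChange Ω).ext fun j => ?_
  rw [Basis.baseChange_apply, LinearMap.sum_apply]
  have h1 := (TensorProduct.equivFinsuppOfBasisLeft w).symm_apply_apply
    (y ((1 : Ω) ⊗ₜ[k] b j))
  rw [TensorProduct.equivFinsuppOfBasisLeft_symm_apply] at h1
  rw [← h1, Finsupp.sum_of_support_subset (s := F) _ ?_ _ (fun i _ => TensorProduct.tmul_zero _ _)]
  · refine Finset.sum_congr rfl fun i _ => ?_
    rw [LinearMap.smul_apply, LinearMap.baseChange_tmul, TensorProduct.smul_tmul', smul_eq_mul,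
      mul_one]
    rfl
  · intro i hi
    exact Finset.mem_biUnion.2 ⟨j, Finset.mem_univ _, hi⟩

/-- Linear independence of the coefficients. -/
theorem coef_zero (w : Basis β k Ω) (F : Finset β) (c : β → k)
    (h : ∑ i ∈ F, w i * algebraMap k Ω (c i) = 0) : ∀ i ∈ F, c i = 0 := by
  intro i hi
  have h1 := linearIndependent_iff'.1 w.linearIndependent F c (by
    rw [← h]
    refine Finset.sum_congr rfl fun i _ => ?_
    rw [Algebra.smul_def, mul_comm])
  exact h1 i hi

theorem bcm_ext {κ : Type} [Fintype κ] [DecidableEq κ] (φ : MultilinearMap k (fun _ : κ => V) k)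
    (y : Module.End k V) (l : κ) (v : κ → V) :
    bcm (Ω := Ω) (Module.finBasis k V) φ (Function.update (fun l => (1 : Ω) ⊗ₜ[k] v l) l
      ((1 : Ω) ⊗ₜ[k] y (v l))) = algebraMap k Ω (φ (Function.update v l (y (v l)))) := by
  rw [← bcm_one (Ω := Ω) (Module.finBasis k V) φ (Function.update v l (y (v l)))]
  congr 1
  funext l'
  by_cases h : l' = l
  · subst h
    rw [Function.update_self, Function.update_self]
  · rw [Function.update_of_ne h, Function.update_of_ne h]

/-- The components of an operator that kills a form kill the form. -/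
theorem oc_kills (w : Basis β k Ω) {κ : Type} [Fintype κ] [DecidableEq κ]
    {φ : MultilinearMap k (fun _ : κ => V) k} {y : Module.End Ω (Ω ⊗[k] V)}
    (hy : Kills y (bcm (Ω := Ω) (Module.finBasis k V) φ)) (i : β) : Kills (oc w y i) φ := by
  classical
  obtain ⟨F, hF, hsum⟩ := exists_oc w y
  intro v
  by_cases hi : i ∉ F
  · refine Finset.sum_eq_zero fun l _ => ?_
    rw [hF i hi, LinearMap.zero_apply]
    exact φ.map_update_zero v l
  push Not at hi
  refine coef_zero w F (fun i => ∑ l, φ (Function.update v l (oc w y i (v l)))) ?_ i hi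
  have h1 := hy (fun l => (1 : Ω) ⊗ₜ[k] v l)
  rw [← h1]
  simp only [map_sum, Finset.mul_sum]
  rw [Finset.sum_comm]
  refine Finset.sum_congr rfl fun l _ => ?_
  have h2 : y ((1 : Ω) ⊗ₜ[k] v l) = ∑ i ∈ F, w i • ((1 : Ω) ⊗ₜ[k] oc w y i (v l)) := by
    conv_lhs => rw [hsum]
    rw [LinearMap.sum_apply]
    refine Finset.sum_congr rfl fun i _ => ?_
    rw [LinearMap.smul_apply, LinearMap.baseChange_tmul]
  rw [h2, MultilinearMap.map_update_sum]
  refine Finset.sum_congr rfl fun i _ => ?_
  rw [MultilinearMap.map_update_smul, bcm_ext, smul_eq_mul]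

/-- Extension of scalars of a killed form. -/
theorem kills_bcm {κ : Type} [Fintype κ] [DecidableEq κ] {φ : MultilinearMap k (fun _ : κ => V) k}
    {x : Module.End k V} (hx : Kills x φ) :
    Kills (x.baseChange Ω) (bcm (Ω := Ω) (Module.finBasis k V) φ) := by
  classical
  refine kills_of_basis ((Module.finBasis k V).baseChange Ω) _ _ fun I => ?_
  simp only [Basis.baseChange_apply, LinearMap.baseChange_tmul]
  rw [Finset.sum_congr rfl fun l _ => bcm_ext φ x l (fun l => Module.finBasis k V (I l)),
    ← map_sum, hx, map_zero]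

/-- The trace in terms of the components. -/
theorem trace_oc (w : Basis β k Ω) (x : Module.End k V) (y : Module.End Ω (Ω ⊗[k] V))
    (h : ∀ i, LinearMap.trace k V (x * oc w y i) = 0) :
    LinearMap.trace Ω (Ω ⊗[k] V) (x.baseChange Ω * y) = 0 := by
  obtain ⟨F, -, hsum⟩ := exists_oc w y
  rw [hsum, Finset.mul_sum, map_sum]
  refine Finset.sum_eq_zero fun i _ => ?_
  rw [mul_smul_comm, map_smul, ← LinearMap.baseChange_mul, LinearMap.trace_baseChange, h i,
    map_zero, smul_zero]

/-- Commuting with the components. -/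
theorem comm_oc (w : Basis β k Ω) {x : Module.End k V} {y : Module.End Ω (Ω ⊗[k] V)}
    (h : ∀ i, x * oc w y i = oc w y i * x) :
    x.baseChange Ω * y = y * x.baseChange Ω := by
  obtain ⟨F, -, hsum⟩ := exists_oc w y
  rw [hsum, Finset.mul_sum, Finset.sum_mul]
  refine Finset.sum_congr rfl fun i _ => ?_
  rw [mul_smul_comm, smul_mul_assoc, ← LinearMap.baseChange_mul, ← LinearMap.baseChange_mul, h i]

omit [FiniteDimensional k V] in
theorem baseChange_inj {x y : Module.End k V} (h : x.baseChange Ω = y.baseChange Ω) : x = y := by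
  refine LinearMap.ext fun v => ?_
  have h1 := LinearMap.congr_fun h ((1 : Ω) ⊗ₜ[k] v)
  rw [LinearMap.baseChange_tmul, LinearMap.baseChange_tmul] at h1
  have h2 : Function.Injective (TensorProduct.mk k Ω V 1) := by
    intro a b hab
    obtain ⟨w⟩ : Nonempty (Basis (Basis.ofVectorSpaceIndex k V) k V) :=
      ⟨Basis.ofVectorSpace k V⟩
    refine w.ext_elem fun i => ?_
    have h3 := congrArg (fun z => (w.baseChange Ω).repr z i) hab
    simp only [TensorProduct.mk_apply, Basis.baseChange_repr_tmul] at h3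
    rw [Algebra.smul_def, Algebra.smul_def, mul_one, mul_one] at h3
    exact (algebraMap k Ω).injective h3
  exact h2 h1

end

end Pool.Agent.E8helper1.CT
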