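import Mathlib
import Pool.Agent.E8helper1.CT.Comp
import Pool.Agent.E8helper1.AP.Cartan

/-!
# The trace form on the Lie algebra is nondegenerate
-/

set_option autoImplicit false
set_option linter.unusedSectionVars false

namespace Pool.Agent.E8helper1.CT

open Module TensorProduct Pool.Agent.H204R3.SP Pool.Agent.H204R3.GP Pool.Agent.W522.U
  Pool.Agent.W528.Odd
open Pool.Agent.E8helper1.AP (Jb ext_one exists_jb)

attribute [local instance 100] LieRing.ofAssociativeRing

noncomputable section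

variable {k : Type} [Field k] [CharZero k] {V Γ : Type} [AddCommGroup V] [Module k V]
  [FiniteDimensional k V] [Group Γ] {ρ : Representation k Γ V} {χ : Γ →* k}

section ext

variable {Ω : Type} [Field Ω] [CharZero Ω] [Algebra k Ω] [IsAlgClosed Ω]

omit [CharZero k] [FiniteDimensional k V] [CharZero Ω] [IsAlgClosed Ω] in
theorem baseChange_pow (x : Module.End k V) (n : ℕ) :
    (x ^ n).baseChange Ω = (x.baseChange Ω) ^ n := by
  induction n with
  | zero =>
    rw [pow_zero, pow_zero]
    exact LinearMap.baseChange_id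
  | succ n ih => rw [pow_succ, pow_succ, LinearMap.baseChange_mul, ih]

/-- The functions of the semisimple part of an element have components in the Lie algebra. -/
theorem rep_lieT {x : Module.End k V} (hx : x ∈ lieT ρ χ) (J : Jb (x.baseChange Ω))
    (g : Ω →+ Ω) {β : Type} [DecidableEq β] (w : Basis β k Ω) (i : β) :
    oc w (J.op (fun c => g c • 1)) i ∈ lieT ρ χ := by
  intro m φ hφ
  have h1 : Kills (x.baseChange Ω) (bcm (Ω := Ω) (Module.finBasis k V) φ) := kills_bcm (hx m φ hφ)
  have h2 := replica J h1 g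
  exact oc_kills w h2 i

/-- The elements of the radical of the trace form are nilpotent. -/
theorem nil_of_orth' {x : Module.End k V} (hx : x ∈ orth (lieT ρ χ) (lieT ρ χ)) :
    IsNilpotent (x.baseChange Ω) := by
  classical
  obtain ⟨hx1, hx2⟩ := hx
  obtain ⟨J⟩ := exists_jb (x.baseChange Ω)
  refine cartan J fun f => ?_
  have h0 : ∀ i, oc (Basis.ofVectorSpace k Ω)
      (J.op (fun c => (((Rat.castHom Ω : ℚ →+* Ω) : ℚ →+ Ω).comp f) c • 1)) i ∈ lieT ρ χ :=
    fun i => rep_lieT hx1 J _ _ i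
  have h00 : ∀ i, LinearMap.trace k V (x * oc (Basis.ofVectorSpace k Ω)
      (J.op (fun c => (((Rat.castHom Ω : ℚ →+* Ω) : ℚ →+ Ω).comp f) c • 1)) i) = 0 :=
    fun i => hx2 _ (h0 i)
  have h1 := trace_oc (Basis.ofVectorSpace k Ω) x
    (J.op (fun c => (((Rat.castHom Ω : ℚ →+* Ω) : ℚ →+ Ω).comp f) c • 1)) h00
  exact h1

end ext

/-- The elements of the radical of the trace form are nilpotent. -/
theorem nil_of_orth {x : Module.End k V} (hx : x ∈ orth (lieT ρ χ) (lieT ρ χ)) :
    IsNilpotent x := by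
  obtain ⟨n, hn⟩ := nil_of_orth' (Ω := AlgebraicClosure k) hx
  refine ⟨n, baseChange_inj (Ω := AlgebraicClosure k) ?_⟩
  rw [baseChange_pow, hn, LinearMap.baseChange_zero]

/-- A Lie algebra of nilpotent operators, stable under the group and commuting with equivariant
projections, vanishes. -/
theorem engel (hss : HasProj ρ) (I : Submodule k (Module.End k V))
    (hbr : ∀ x ∈ I, ∀ y ∈ I, x * y - y * x ∈ I)
    (hconj : ∀ g : Γ, ∀ x ∈ I, ρ g * x * ρ g⁻¹ ∈ I) (hnil : ∀ x ∈ I, IsNilpotent x)
    (hcomm : ∀ x ∈ I, ∀ P : Module.End k V, (∀ g v, P (ρ g v) = ρ g (P v)) → ∀ v,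
      x (P v) = P (x v)) : I = ⊥ := by
  let L : LieSubalgebra k (Module.End k V) := { I with lie_mem' := fun {x y} hx hy => hbr x hx y hy }
  -- the vectors killed by the Lie algebra
  let V0 : Submodule k V :=
    { carrier := {v | ∀ x ∈ I, x v = 0}
      zero_mem' := fun x _ => map_zero _
      add_mem' := fun ha hb x hx => by rw [map_add, ha x hx, hb x hx, add_zero]
      smul_mem' := fun c a ha x hx => by rw [map_smul, ha x hx, smul_zero] }
  have hV0 : ∀ g, ∀ v ∈ V0, ρ g v ∈ V0 := by
    intro g v hv x hx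
    have h1 := hv _ (hconj g⁻¹ x hx)
    rw [inv_inv] at h1
    have h2 : ρ g ((ρ g⁻¹ * x * ρ g) v) = x (ρ g v) := by
      rw [Module.End.mul_apply, Module.End.mul_apply, Rinv']
    rw [← h2, h1, map_zero]
  obtain ⟨P, hP1, hP2, hP3⟩ := hss ⊤ inferInstance V0 (fun s _ => hV0 s)
  have hP3' : ∀ g v, P (ρ g v) = ρ g (P v) := fun g v => hP3 g trivial v
  have hker : LinearMap.ker P = ⊥ := by
    by_contra hne
    let N : LieSubmodule k L V :=
      { LinearMap.ker P with
        lie_mem := fun {x v} hv => by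
          change P (x.1 v) = 0
          rw [← hcomm x.1 x.2 P hP3' v]
          have h1 : P v = 0 := hv
          rw [h1, map_zero] }
    have hnilV : LieModule.IsNilpotent L V := by
      rw [LieModule.isNilpotent_iff_forall' (R := k)]
      intro x
      exact hnil x.1 x.2
    have hnilN : LieModule.IsNilpotent L N :=
      Function.Injective.lieModuleIsNilpotent (R := k) (f := LieHom.id)
        (g := (N.incl : N →ₗ[k] V)) (fun x m => rfl) N.injective_incl
    have hntN : Nontrivial N := by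
      obtain ⟨u, hu, hu0⟩ := Submodule.exists_mem_ne_zero_of_ne_bot hne
      exact ⟨⟨u, hu⟩, 0, fun h => hu0 (congrArg Subtype.val h)⟩
    have hnt : Nontrivial (LieModule.maxTrivSubmodule k L N) :=
      LieModule.nontrivial_max_triv_of_isNilpotent k L N
    obtain ⟨⟨v, hv⟩, hv0⟩ := exists_ne (0 : LieModule.maxTrivSubmodule k L N)
    apply hv0
    rw [LieModule.mem_maxTrivSubmodule] at hv
    have h1 : (v : V) ∈ V0 := by
      intro x hx
      exact congrArg Subtype.val (hv ⟨x, hx⟩)
    have h2 : P (v : V) = 0 := v.2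
    rw [hP2 _ h1] at h2
    exact Subtype.ext (Subtype.ext h2)
  rw [eq_bot_iff]
  intro x hx
  rw [Submodule.mem_bot]
  refine LinearMap.ext fun v => ?_
  have h1 : v - P v ∈ LinearMap.ker P := by
    rw [LinearMap.mem_ker, map_sub, hP2 _ (hP1 v), sub_self]
  rw [hker, Submodule.mem_bot, sub_eq_zero] at h1
  rw [h1]
  exact hP1 v x hx

/-- **The trace form is nondegenerate.** -/
theorem orth_bot (ω : V →ₗ[k] V →ₗ[k] k) (hnd : ∀ u, (∀ v, ω u v = 0) → u = 0)
    (hω : ∀ g u v, ω (ρ g u) (ρ g v) = χ g * ω u v) (hss : HasProj ρ) :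
    orth (lieT ρ χ) (lieT ρ χ) = ⊥ := by
  refine engel hss _ ?_ ?_ (fun x hx => nil_of_orth hx) ?_
  · rintro x ⟨hx, hx'⟩ y ⟨hy, hy'⟩
    refine ⟨lieT_bracket _ _ hx hy, fun z hz => ?_⟩
    rw [trace_br]
    exact hx' _ (lieT_bracket _ _ hy hz)
  · rintro g x ⟨hx, hx'⟩
    refine ⟨lieT_conj _ _ g hx, fun z hz => ?_⟩
    have h1 := hx' _ (lieT_conj _ _ g⁻¹ hz)
    have h2 : LinearMap.trace k V (ρ g * x * ρ g⁻¹ * z) =
        LinearMap.trace k V (x * (ρ g⁻¹ * z * ρ g)) := by
      rw [mul_assoc, mul_assoc, LinearMap.trace_mul_comm, mul_assoc, mul_assoc]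
    rw [h2]
    rw [inv_inv] at h1
    exact h1
  · intro x hx P hP v
    exact Pool.Agent.W839.OT.HTFam.comm ρ χ ω hnd hω ⊤ inferInstance P (fun s _ => hP s) x hx.1 v

end

end Pool.Agent.E8helper1.CT
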