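import Mathlib
import Pool.Agent.E8helper1.CT.Nondeg
import Pool.Agent.E8helper1.AP.Glob

/-!
# Operators that annihilate the Tate forms of degree four
-/

set_option autoImplicit false
set_option linter.unusedSectionVars false

namespace Pool.Agent.E8helper1.CT

open Module TensorProduct Pool.Agent.H204R3.SP Pool.Agent.H204R3.GP Pool.Agent.W522.U
  Pool.Agent.W528.Odd
open Pool.Agent.E8helper1.AP (A1 A1_apply span_A1 exists_orth_proj orth_unique trace_nondeg)

noncomputable section

variable {k : Type} [Field k] [CharZero k] {V Γ : Type} [AddCommGroup V] [Module k V]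
  [FiniteDimensional k V] [Group Γ] {ρ : Representation k Γ V} {χ : Γ →* k}

/-- The four vectors. -/
def vec4 (a b c d : V) : Fin 2 × Fin 2 → V := fun l =>
  if l.1 = 0 then (if l.2 = 0 then a else b) else (if l.2 = 0 then c else d)

theorem kills_prod {x : Module.End k V} {B C : V →ₗ[k] V →ₗ[k] k}
    (h : Kills x (mmG (1 : Equiv.Perm (Fin 2 × Fin 2)) ![B, C])) (a b c d : V) :
    (B (x a) b + B a (x b)) * C c d + B a b * (C (x c) d + C c (x d)) = 0 := by
  classical
  have h1 := h (vec4 a b c d)
  rw [Fintype.sum_prod_type, Fin.sum_univ_two, Fin.sum_univ_two, Fin.sum_univ_two] at h1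
  simp only [mmG_apply, Fin.prod_univ_two] at h1
  simp [vec4] at h1
  linear_combination h1

theorem isTate_prod {B C : V →ₗ[k] V →ₗ[k] k} (hB : IsTate2 ρ χ B) (hC : IsTate2 ρ χ C) :
    IsTate ρ χ 2 (mmG (1 : Equiv.Perm (Fin 2 × Fin 2)) ![B, C]) := by
  obtain ⟨Δ, hΔ, h⟩ := hB
  obtain ⟨Δ', hΔ', h'⟩ := hC
  refine ⟨Δ ⊓ Δ', inferInstance, fun s hs v => ?_⟩
  rw [mmG_apply, mmG_apply, Fin.prod_univ_two, Fin.prod_univ_two]
  change B (ρ s _) (ρ s _) * C (ρ s _) (ρ s _) = χ s ^ 2 * (B _ _ * C _ _)
  rw [h s hs.1, h' s hs.2]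
  ring

section four

variable {ω : V →ₗ[k] V →ₗ[k] k} (hnd : ∀ u, (∀ v, ω u v = 0) → u = 0)
  (hω : ∀ g u v, ω (ρ g u) (ρ g v) = χ g * ω u v) {x : Module.End k V}
  (hx : ∀ φ, IsTate ρ χ 2 φ → Kills x φ)

omit [FiniteDimensional k V] in
include hω in
theorem isTate2_self : IsTate2 ρ χ ω := ⟨⊤, inferInstance, fun s _ u v => hω s u v⟩

include hnd hω hx in
theorem four_skew (u w : V) : ω (x u) w + ω u (x w) = 0 := by
  have h1 := kills_prod (hx _ (isTate_prod (isTate2_self hω) (isTate2_self hω)))
  by_cases h0 : ∀ a b, ω a b = 0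
  · rw [h0, h0, add_zero]
  push Not at h0
  obtain ⟨a, b, hab⟩ := h0
  have h2 := h1 a b a b
  have h3 : ω (x a) b + ω a (x b) = 0 := by
    have h4 : (2 * ω a b) * (ω (x a) b + ω a (x b)) = 0 := by linear_combination h2
    exact (mul_eq_zero.1 h4).resolve_left (mul_ne_zero two_ne_zero hab)
  have h5 := h1 u w a b
  rw [h3, mul_zero, add_zero] at h5
  exact (mul_eq_zero.1 h5).resolve_right hab

include hnd hω hx in
theorem four_two {B : V →ₗ[k] V →ₗ[k] k} (hB : IsTate2 ρ χ B) (u w : V) :
    B (x u) w + B u (x w) = 0 := by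
  have h1 := kills_prod (hx _ (isTate_prod hB (isTate2_self hω)))
  by_cases h0 : ∀ a b, ω a b = 0
  · have h2 : ∀ v : V, v = 0 := fun v => hnd v (h0 v)
    rw [h2 u, h2 w, map_zero, map_zero, LinearMap.zero_apply, add_zero]
  push Not at h0
  obtain ⟨a, b, hab⟩ := h0
  have h5 := h1 u w a b
  rw [four_skew hnd hω hx, mul_zero, add_zero] at h5
  exact (mul_eq_zero.1 h5).resolve_right hab

include hnd hω hx in
/-- The operators commute with the potentially equivariant operators. -/
theorem four_comm {P : Module.End k V} {Δ : Subgroup Γ} (hΔ : Δ.FiniteIndex)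
    (hP : ∀ s ∈ Δ, ∀ v, P (ρ s v) = ρ s (P v)) : x * P = P * x := by
  refine LinearMap.ext fun v => ?_
  rw [Module.End.mul_apply, Module.End.mul_apply, ← sub_eq_zero]
  refine hnd _ fun w => ?_
  have hB : IsTate2 ρ χ (ω.comp P) := by
    refine ⟨Δ, hΔ, fun s hs u v => ?_⟩
    rw [LinearMap.comp_apply, LinearMap.comp_apply, hP s hs, hω]
  have h1 := four_two hnd hω hx hB v w
  have h2 := four_skew hnd hω hx (P v) w
  rw [LinearMap.comp_apply, LinearMap.comp_apply] at h1
  rw [map_sub, LinearMap.sub_apply]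
  linear_combination h2 - h1

include hnd hω hx in
/-- **The operators normalize the stable Lie algebras.** -/
theorem four_norm {L : Submodule k (Module.End k V)} (hL : orth L L = ⊥)
    (hconj : ∀ g : Γ, ∀ y ∈ L, ρ g * y * ρ g⁻¹ ∈ L) {y : Module.End k V} (hy : y ∈ L) :
    x * y - y * x ∈ L := by
  classical
  have hxs : ∀ u w, ω (x u) w + ω u (x w) = 0 := fun u w => four_skew hnd hω hx u w
  obtain ⟨P, hP1, hP2⟩ := exists_orth_proj L hL
  have hPL : ∀ y ∈ L, P y = y := fun y hy => orth_unique hL (hP1 y) hy (hP2 y)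
  have hPg : ∀ (g : Γ) (y : Module.End k V), P (ρ g * y * ρ g⁻¹) = ρ g * P y * ρ g⁻¹ := by
    intro g y
    refine orth_unique hL (hP1 _) (hconj g _ (hP1 y)) fun c hc => ?_
    have h1 := hconj g⁻¹ c hc
    rw [inv_inv] at h1
    have h2 : ∀ y, LinearMap.trace k V (ρ g * y * ρ g⁻¹ * c) =
        LinearMap.trace k V (y * (ρ g⁻¹ * c * ρ g)) := by
      intro y
      rw [mul_assoc, mul_assoc, LinearMap.trace_mul_comm, mul_assoc, mul_assoc]
    rw [hP2 _ c hc, h2, h2, hP2 _ _ h1]
  have hAg : ∀ (g : Γ) u v, A1 ω (ρ g u) (ρ g v) = χ g • (ρ g * A1 ω u v * ρ g⁻¹) := by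
    intro g u v
    refine LinearMap.ext fun w => ?_
    rw [A1_apply, LinearMap.smul_apply, Module.End.mul_apply, Module.End.mul_apply,
      A1_apply, map_smul, smul_smul, ← hω, Rinv']
  have hAx : ∀ u v : V, A1 ω (x u) v + A1 ω u (x v) = x * A1 ω u v - A1 ω u v * x := by
    intro u v
    refine LinearMap.ext fun w => ?_
    rw [LinearMap.add_apply, LinearMap.sub_apply, Module.End.mul_apply, Module.End.mul_apply,
      A1_apply, A1_apply, A1_apply, A1_apply, map_smul]
    have h1 := hxs u w
    have h2 : ω (x u) w = -ω u (x w) := by linear_combination h1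
    rw [h2, neg_smul]
    abel
  -- the form
  let bas := Module.finBasis k (Module.End k V)
  let C : Fin (finrank k (Module.End k V)) → Fin 2 → (V →ₗ[k] V →ₗ[k] k) := fun i =>
    ![(A1 ω).compr₂ ((bas.coord i).comp P),
      (A1 ω).compr₂ ((LinearMap.trace k V).comp (LinearMap.mulLeft k (bas i)))]
  let φ : MultilinearMap k (fun _ : Fin 2 × Fin 2 => V) k := ∑ i, mmG 1 (C i)
  have hφ : ∀ v, φ v = LinearMap.trace k V (P (A1 ω (v (0, 0)) (v (0, 1))) *
      A1 ω (v (1, 0)) (v (1, 1))) := by
    intro v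
    have h1 : P (A1 ω (v (0, 0)) (v (0, 1))) =
        ∑ i, bas.coord i (P (A1 ω (v (0, 0)) (v (0, 1)))) • bas i := (bas.sum_repr _).symm
    rw [h1, Finset.sum_mul, map_sum]
    change (∑ i, mmG 1 (C i)) v = _
    have h2 : ∀ s : Finset (Fin (finrank k (Module.End k V))), (∑ i ∈ s, mmG 1 (C i)) v =
        ∑ i ∈ s, mmG 1 (C i) v := by
      intro s
      induction s using Finset.induction_on with
      | empty => rfl
      | insert j s hj ih =>
        rw [Finset.sum_insert hj, Finset.sum_insert hj, ← ih]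
        rfl
    rw [h2]
    refine Finset.sum_congr rfl fun i _ => ?_
    rw [mmG_apply, Fin.prod_univ_two, smul_mul_assoc, map_smul, smul_eq_mul]
    rfl
  have hT : IsTate ρ χ 2 φ := by
    refine ⟨⊤, inferInstance, fun g _ v => ?_⟩
    rw [hφ, hφ, hAg, hAg, map_smul, hPg, smul_mul_assoc, mul_smul_comm, map_smul,
      map_smul, smul_eq_mul, smul_eq_mul, ← mul_assoc, ← pow_two]
    congr 1
    have h1 : ∀ a b : Module.End k V, LinearMap.trace k V
        (ρ g * a * ρ g⁻¹ * (ρ g * b * ρ g⁻¹)) = LinearMap.trace k V (a * b) := by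
      intro a b
      have e1 : ρ g⁻¹ * ρ g = 1 := by
        rw [← map_mul, inv_mul_cancel, map_one]
      have e2 : ρ g * a * ρ g⁻¹ * (ρ g * b * ρ g⁻¹) = ρ g * (a * b * ρ g⁻¹) := by
        calc _ = ρ g * a * (ρ g⁻¹ * ρ g) * b * ρ g⁻¹ := by simp only [mul_assoc]
          _ = _ := by rw [e1, mul_one]; simp only [mul_assoc]
      rw [e2, LinearMap.trace_mul_comm, mul_assoc, e1, mul_one]
    exact h1 _ _
  -- the operator kills the form
  have key : ∀ a b c d : V, LinearMap.trace k V (P (x * A1 ω a b - A1 ω a b * x) *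
      A1 ω c d) + LinearMap.trace k V (P (A1 ω a b) *
      (x * A1 ω c d - A1 ω c d * x)) = 0 := by
    intro a b c d
    have h1 := hx φ hT (fun k => if k.1 = 0 then (if k.2 = 0 then a else b) else
      (if k.2 = 0 then c else d))
    rw [Fintype.sum_prod_type, Fin.sum_univ_two, Fin.sum_univ_two, Fin.sum_univ_two, hφ, hφ, hφ,
      hφ] at h1
    rw [← hAx, ← hAx, map_add, add_mul, mul_add, map_add, map_add, ← add_assoc]
    simpa [Function.update_apply, add_assoc] using h1
  have hspan := span_A1 ω hnd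
  have key2 : ∀ y z : Module.End k V, LinearMap.trace k V (P (x * y - y * x) * z) +
      LinearMap.trace k V (P y * (x * z - z * x)) = 0 := by
    intro y z
    induction hspan y using Submodule.span_induction with
    | mem y hy =>
      obtain ⟨a, b, rfl⟩ := hy
      induction hspan z using Submodule.span_induction with
      | mem z hz =>
        obtain ⟨c, d, rfl⟩ := hz
        exact key a b c d
      | zero => simp
      | add z z' _ _ hz hz' =>
        have e1 : x * (z + z') - (z + z') * x = (x * z - z * x) + (x * z' - z' * x) := by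
          rw [mul_add, add_mul]
          abel
        rw [e1, mul_add, mul_add, map_add, map_add]
        linear_combination hz + hz'
      | smul c z _ hz =>
        have e1 : x * (c • z) - (c • z) * x = c • (x * z - z * x) := by
          rw [mul_smul_comm, smul_mul_assoc, smul_sub]
        rw [e1, mul_smul_comm, mul_smul_comm, map_smul, map_smul, ← smul_add, hz, smul_zero]
    | zero => simp
    | add y y' _ _ hy hy' =>
      have e1 : x * (y + y') - (y + y') * x = (x * y - y * x) + (x * y' - y' * x) := by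
        rw [mul_add, add_mul]
        abel
      rw [e1, map_add, map_add, add_mul, add_mul, map_add, map_add]
      linear_combination hy + hy'
    | smul c y _ hy =>
      have e1 : x * (c • y) - (c • y) * x = c • (x * y - y * x) := by
        rw [mul_smul_comm, smul_mul_assoc, smul_sub]
      rw [e1, map_smul, map_smul, smul_mul_assoc, smul_mul_assoc, map_smul, map_smul, ← smul_add,
        hy, smul_zero]
  have key3 : P (x * y - y * x) = x * P y - P y * x := by
    rw [← sub_eq_zero]
    refine trace_nondeg fun z => ?_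
    have h1 := key2 y z
    have h2 : LinearMap.trace k V (P y * (x * z - z * x)) =
        -LinearMap.trace k V ((x * P y - P y * x) * z) := by
      have h3 := trace_br x (P y) z
      have h4 : LinearMap.trace k V (x * (P y * z - z * P y)) =
          -LinearMap.trace k V (P y * (x * z - z * x)) := by
        rw [mul_sub, mul_sub, map_sub, map_sub]
        have e1 : LinearMap.trace k V (x * (P y * z)) = LinearMap.trace k V (P y * (z * x)) := by
          rw [LinearMap.trace_mul_comm, mul_assoc]
        have e2 : LinearMap.trace k V (x * (z * P y)) = LinearMap.trace k V (P y * (x * z)) := by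
          rw [← mul_assoc, LinearMap.trace_mul_comm]
        rw [e1, e2]
        ring
      rw [h3, h4, neg_neg]
    rw [sub_mul, map_sub, sub_eq_zero]
    rw [h2] at h1
    linear_combination h1
  rw [hPL y hy] at key3
  rw [← key3]
  exact hP1 _

include hnd hω hx in
/-- The decomposition of the operator. -/
theorem four_split (hss : HasProj ρ) : ∃ y ∈ lieT ρ χ, ∀ z ∈ lieT ρ χ,
    (x - y) * z = z * (x - y) := by
  have hL := orth_bot ω hnd hω hss
  obtain ⟨P, hP1, hP2⟩ := exists_orth_proj (lieT ρ χ) hL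
  have hconj : ∀ g : Γ, ∀ y ∈ lieT ρ χ, ρ g * y * ρ g⁻¹ ∈ lieT ρ χ :=
    fun g y hy => lieT_conj _ _ g hy
  refine ⟨P x, hP1 x, fun z hz => ?_⟩
  have h1 : (x - P x) * z - z * (x - P x) ∈ orth (lieT ρ χ) (lieT ρ χ) := by
    refine ⟨?_, fun c hc => ?_⟩
    · have h2 := four_norm hnd hω hx hL hconj hz
      have h3 := lieT_bracket _ _ (hP1 x) hz
      have h4 : (x - P x) * z - z * (x - P x) = (x * z - z * x) - (P x * z - z * P x) := by
        rw [sub_mul, mul_sub]
        abel
      rw [h4]
      exact Submodule.sub_mem _ h2 h3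
    · rw [trace_br, sub_mul, map_sub, hP2 x _ (lieT_bracket _ _ hz hc), sub_self]
  rw [hL, Submodule.mem_bot, sub_eq_zero] at h1
  exact h1

end four

end

end Pool.Agent.E8helper1.CT
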