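import Mathlib
import Pool.Agent.E8helper1.CT.Four

/-!
# Operators that commute with the Lie algebra
-/

set_option autoImplicit false
set_option linter.unusedSectionVars false

namespace Pool.Agent.E8helper1.CT

open Module TensorProduct Pool.Agent.H204R3.SP Pool.Agent.H204R3.GP Pool.Agent.W522.U
  Pool.Agent.W528.Odd Pool.Agent.TH118.CR
open Pool.Agent.E8helper1.AP (Jb ext_one exists_jb fK fK_unit mem_pow vanish' lg lg_kill bp bp_zero
  bp_one stable_gen)

noncomputable section

section closed

variable {K : Type} [Field K] [CharZero K] {X : Type} [AddCommGroup X] [Module K X]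
  [FiniteDimensional K X]

/-- The semisimple part. -/
theorem slope_kill [IsAlgClosed K] {κ : Type} [Fintype κ] [DecidableEq κ] {G : Module.End K X} (J : Jb G)
    {φ : MultilinearMap K (fun _ : κ => X) K} {M : ℕ} (hM0 : M ≠ 0)
    (hφM : ∀ v, φ (fun k => (G ^ M) (v k)) = φ v) (a : Additive Kˣ →+ K) :
    Kills (J.op (fun c => fK a c • 1)) φ := by
  have _ := J.fι
  have _ := J.dι
  refine kills_of_basis J.e _ _ fun I => ?_
  have h1 : ∀ l : κ, φ (Function.update (fun l => J.e (I l)) l
      (J.op (fun c => fK a c • 1) (J.e (I l)))) =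
      fK a (J.lam (I l)) * φ (fun l => J.e (I l)) := by
    intro l
    rw [J.op_on _ (J.mem (I l)), LinearMap.smul_apply, Module.End.one_apply,
      MultilinearMap.map_update_smul, smul_eq_mul, Function.update_eq_self]
  rw [Finset.sum_congr rfl fun l _ => h1 l, ← Finset.sum_mul]
  by_cases h0 : φ (fun l => J.e (I l)) = 0
  · rw [h0, mul_zero]
  have h2 := vanish' (G ^ M) φ hφM (fun l => J.lam (I l) ^ M) _
    (fun l => mem_pow (J.mem (I l)) M) h0
  have h3 : ∀ l, J.lam (I l) ≠ 0 := by
    intro l hl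
    rw [Finset.prod_eq_zero (Finset.mem_univ l) (by rw [hl, zero_pow hM0])] at h2
    exact zero_ne_one h2
  let c : κ → Kˣ := fun l => Units.mk0 _ (h3 l)
  have h5 : ∏ l, c l ^ M = 1 := by
    apply Units.ext
    push_cast
    exact h2
  have h6 : (M : K) * ∑ l, a (Additive.ofMul (c l)) = 0 := by
    have h7 := congrArg (fun x : Kˣ => a (Additive.ofMul x)) h5
    simp only [ofMul_prod, ofMul_pow, map_sum, map_nsmul, nsmul_eq_mul, ofMul_one, map_zero] at h7
    rw [Finset.mul_sum, h7]
  have h7 := (mul_eq_zero.1 h6).resolve_left (Nat.cast_ne_zero.2 hM0)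
  have h8 : ∀ l, fK a (J.lam (I l)) = a (Additive.ofMul (c l)) := fun l => fK_unit a (c l)
  rw [Finset.sum_congr rfl fun l _ => h8 l, h7, zero_mul]

theorem un_nil {G : Module.End K X} (J : Jb G) (hG : ∀ p, J.lam p ≠ 0) :
    (J.un - 1) ^ finrank K X = 0 := by
  refine J.e.ext fun p => ?_
  rw [J.nil_pow (hG p) _ (J.mem p)]
  have h1 := J.mem p
  rw [Module.End.maxGenEigenspace_eq_genEigenspace_finrank, Module.End.mem_genEigenspace_nat,
    LinearMap.mem_ker] at h1
  rw [h1, smul_zero, LinearMap.zero_apply]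

omit [CharZero K] [FiniteDimensional K X] in
theorem lam_ne {G : Module.End K X} (J : Jb G) (hinj : ∀ v, G v = 0 → v = 0) (p : J.ι) :
    J.lam p ≠ 0 := by
  intro h0
  have h1 := J.mem p
  rw [h0, Module.End.mem_maxGenEigenspace] at h1
  obtain ⟨i, hi⟩ := h1
  rw [zero_smul, sub_zero] at hi
  have h2 : ∀ i : ℕ, ∀ v, (G ^ i) v = 0 → v = 0 := by
    intro i
    induction i with
    | zero => intro v hv; rwa [pow_zero] at hv
    | succ i ih =>
      intro v hv
      rw [pow_succ, Module.End.mul_apply] at hv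
      exact hinj v (ih _ hv)
  exact J.e.ne_zero p (h2 i _ hi)

/-- The unipotent part. -/
theorem un_kill {κ : Type} [Fintype κ] [DecidableEq κ] {G : Module.End K X} (J : Jb G)
    (hG : ∀ p, J.lam p ≠ 0) {φ : MultilinearMap K (fun _ : κ => X) K} {M : ℕ} (hM0 : M ≠ 0)
    (hφM : ∀ v, φ (fun k => (G ^ M) (v k)) = φ v) :
    Kills (lg (J.un - 1) (finrank K X)) φ := by
  classical
  intro v
  refine lg_kill (un_nil J hG) φ hM0 (fun v => ?_) v
  have h1 : (1 + (J.un - 1)) = J.un := by abel
  rw [h1]
  have h2 : φ.compLinearMap (fun _ => J.un ^ M) = φ := by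
    refine Basis.ext_multilinear (fun _ => J.e) fun I => ?_
    rw [MultilinearMap.compLinearMap_apply]
    have h3 : ∀ l, (J.un ^ M) (J.e (I l)) =
        ((J.lam (I l))⁻¹) ^ M • (G ^ M) (J.e (I l)) := fun l => J.un_pow M (J.mem (I l))
    simp only [h3]
    rw [MultilinearMap.map_smul_univ, hφM]
    by_cases h0 : φ (fun l => J.e (I l)) = 0
    · rw [h0, smul_zero]
    have h4 := vanish' (G ^ M) φ hφM (fun l => J.lam (I l) ^ M) _
      (fun l => mem_pow (J.mem (I l)) M) h0
    have h5 : ∏ l, ((J.lam (I l))⁻¹) ^ M = 1 := by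
      have h6 : ∏ l, ((J.lam (I l))⁻¹) ^ M = (∏ l, J.lam (I l) ^ M)⁻¹ := by
        rw [← Finset.prod_inv_distrib]
        exact Finset.prod_congr rfl fun l _ => inv_pow _ _
      rw [h6, h4, inv_one]
    rw [h5, one_smul]
  exact congrArg (fun F : MultilinearMap K (fun _ : κ => X) K => F v) h2

omit [FiniteDimensional K X] in
/-- An operator that commutes with the logarithm commutes with the unipotent operator. -/
theorem comm_of_lg {N m : Module.End K X} {n : ℕ} (hN : N ^ n = 0)
    (hm : Commute m (lg N n)) : Commute m N := by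
  classical
  let c : ℕ → K := fun j => (bp K j).derivative.eval 0
  have hc0 : c 0 = 0 := by
    change (bp K 0).derivative.eval 0 = 0
    rw [bp_zero, Polynomial.derivative_one, Polynomial.eval_zero]
  have hc1 : c 1 = 1 := by
    change (bp K 1).derivative.eval 0 = 1
    rw [bp_one, Polynomial.derivative_X, Polynomial.eval_one]
  let P : Polynomial K := ∑ j ∈ Finset.range n, Polynomial.C (c j) * Polynomial.X ^ j
  have hP : Polynomial.aeval N P = lg N n := by
    change Polynomial.aeval N (∑ j ∈ Finset.range n, Polynomial.C (c j) * Polynomial.X ^ j) = _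
    rw [map_sum]
    refine Finset.sum_congr rfl fun j _ => ?_
    rw [map_mul, map_pow, Polynomial.aeval_C, Polynomial.aeval_X, ← Algebra.smul_def]
  by_cases hn : n < 2
  · have h0 : N = 0 := by
      interval_cases n
      · rw [pow_zero] at hN
        rw [← mul_one N, hN, mul_zero]
      · rwa [pow_one] at hN
    rw [h0]
    exact Commute.zero_right m
  push Not at hn
  have hcoef : ∀ d, P.coeff d = if d < n then c d else 0 := by
    intro d
    change (∑ j ∈ Finset.range n, Polynomial.C (c j) * Polynomial.X ^ j).coeff d = _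
    rw [Polynomial.finsetSum_coeff]
    simp only [Polynomial.coeff_C_mul, Polynomial.coeff_X_pow]
    by_cases hd : d < n
    · rw [if_pos hd, Finset.sum_eq_single d]
      · rw [if_pos rfl, mul_one]
      · intro b _ hb
        rw [if_neg (Ne.symm hb), mul_zero]
      · intro h
        exact absurd (Finset.mem_range.2 hd) h
    · rw [if_neg hd]
      refine Finset.sum_eq_zero fun j hj => ?_
      rw [Finset.mem_range] at hj
      rw [if_neg (by omega), mul_zero]
  obtain ⟨q, hq⟩ : Polynomial.X ^ 2 ∣ P - Polynomial.X := by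
    rw [Polynomial.X_pow_dvd_iff]
    intro d hd
    rw [Polynomial.coeff_sub, hcoef, if_pos (by omega)]
    interval_cases d
    · rw [hc0, Polynomial.coeff_X_zero, sub_zero]
    · rw [hc1, Polynomial.coeff_X_one, sub_self]
  have hP2 : P = Polynomial.X * (1 + Polynomial.X * q) := by
    rw [sub_eq_iff_eq_add.1 hq]
    ring
  have key : ∀ d i : ℕ, 1 ≤ i → n ≤ i + d → Commute m (N ^ i) := by
    intro d
    induction d with
    | zero =>
      intro i _ hi
      have h1 : N ^ i = 0 := by
        obtain ⟨j, rfl⟩ := Nat.exists_eq_add_of_le (show n ≤ i by omega)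
        rw [pow_add, hN, zero_mul]
      rw [h1]
      exact Commute.zero_right m
    | succ d ih =>
      intro i hi1 hi
      have hih : ∀ l, i + 1 ≤ l → Commute m (N ^ l) := fun l hl => ih l (by omega) (by omega)
      obtain ⟨r, hr⟩ : Polynomial.X ∣ (1 + Polynomial.X * q) ^ i - 1 := by
        refine dvd_trans ?_ (sub_one_dvd_pow_sub_one (1 + Polynomial.X * q) i)
        rw [add_sub_cancel_left]
        exact dvd_mul_right _ _
      have h1 : P ^ i = Polynomial.X ^ i + Polynomial.X ^ (i + 1) * r := by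
        rw [hP2, mul_pow, sub_eq_iff_eq_add.1 hr]
        ring
      have h2 : N ^ i = (lg N n) ^ i - N ^ (i + 1) * Polynomial.aeval N r := by
        rw [← hP, ← map_pow, h1, map_add, map_mul, map_pow, map_pow, Polynomial.aeval_X,
          add_sub_cancel_right]
      have h3 : ∀ r : Polynomial K, Commute m (N ^ (i + 1) * Polynomial.aeval N r) := by
        intro r
        induction r using Polynomial.induction_on' with
        | add p q' hp hq' =>
          rw [map_add, mul_add]
          exact hp.add_right hq'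
        | monomial j a =>
          rw [← Polynomial.C_mul_X_pow_eq_monomial, map_mul, map_pow, Polynomial.aeval_C,
            Polynomial.aeval_X, ← Algebra.smul_def, mul_smul_comm, ← pow_add]
          exact (hih _ (by omega)).smul_right a
      rw [h2]
      exact (hm.pow_right i).sub_right (h3 r)
  have h1 := key n 1 le_rfl (by omega)
  rwa [pow_one] at h1

omit [FiniteDimensional K X] in
/-- An operator that commutes with the functions of the semisimple part. -/
theorem comm_coord [IsAlgClosed K] {G m : Module.End K X} (J : Jb G)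
    (hm : ∀ a : Additive Kˣ →+ K, Commute m (J.op (fun c => fK a c • 1))) (p q : J.ι)
    (hpq : J.e.repr (m (J.e p)) q ≠ 0) (a : Additive Kˣ →+ K) :
    fK a (J.lam q) = fK a (J.lam p) := by
  have _ := J.fι
  have _ := J.dι
  have h1 := LinearMap.congr_fun (hm a).eq (J.e p)
  rw [Module.End.mul_apply, Module.End.mul_apply, J.op_on _ (J.mem p), LinearMap.smul_apply,
    Module.End.one_apply, map_smul] at h1
  have h2 := congrArg (fun v => J.e.repr v q) h1
  simp only [map_smul, Finsupp.smul_apply, smul_eq_mul] at h2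
  have h3 : J.e.repr (J.op (fun c => fK a c • 1) (m (J.e p))) q =
      fK a (J.lam q) * J.e.repr (m (J.e p)) q := by
    conv_lhs => rw [← J.e.sum_repr (m (J.e p))]
    rw [map_sum, map_sum, Finset.sum_apply']
    rw [Finset.sum_eq_single q]
    · rw [map_smul, J.op_on _ (J.mem q), LinearMap.smul_apply, Module.End.one_apply, map_smul,
        map_smul, Finsupp.smul_apply, Finsupp.smul_apply, Basis.repr_self,
        Finsupp.single_eq_same, smul_eq_mul, smul_eq_mul, mul_one, mul_comm]
    · intro r _ hr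
      rw [map_smul, J.op_on _ (J.mem r), LinearMap.smul_apply, Module.End.one_apply, map_smul,
        map_smul, Finsupp.smul_apply, Finsupp.smul_apply, Basis.repr_self,
        Finsupp.single_eq_of_ne (Ne.symm hr), smul_zero, smul_zero]
    · intro h
      exact absurd (Finset.mem_univ q) h
  rw [h3] at h2
  exact (mul_right_cancel₀ hpq h2).symm

/-- **An operator that commutes with the slopes and with the logarithm of the unipotent part commutes
with a power.** -/
theorem comm_pow [IsAlgClosed K] {G m : Module.End K X} (J : Jb G) (hG : ∀ p, J.lam p ≠ 0)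
    (hm : ∀ a : Additive Kˣ →+ K, Commute m (J.op (fun c => fK a c • 1)))
    (hm' : Commute m (lg (J.un - 1) (finrank K X))) : ∃ j : ℕ, 0 < j ∧ Commute m (G ^ j) := by
  classical
  have _ := J.fι
  -- the torsion
  have h1 : ∀ p q, J.e.repr (m (J.e p)) q ≠ 0 → ∃ j : ℕ, 0 < j ∧ J.lam q ^ j = J.lam p ^ j := by
    intro p q hpq
    by_contra hcon
    push Not at hcon
    let x : Kˣ := Units.mk0 _ (hG q) * (Units.mk0 _ (hG p))⁻¹
    obtain ⟨a, ha⟩ := exists_add x (by
      intro j hj h
      apply hcon j hj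
      rw [mul_pow, inv_pow, mul_inv_eq_one] at h
      exact congrArg (fun x : Kˣ => (x : K)) h)
    apply ha
    have h2 := comm_coord J hm p q hpq a
    have h3 := fK_unit a (Units.mk0 _ (hG q))
    have h4 := fK_unit a (Units.mk0 _ (hG p))
    rw [Units.val_mk0] at h3 h4
    rw [ofMul_mul, ofMul_inv, map_add, map_neg, ← h3, ← h4, h2, add_neg_cancel]
  choose! j hj0 hj using h1
  let S : Finset (J.ι × J.ι) := Finset.univ.filter fun l => J.e.repr (m (J.e l.1)) l.2 ≠ 0
  obtain ⟨N, hN0, hN⟩ : ∃ N : ℕ, 0 < N ∧ ∀ p q, J.e.repr (m (J.e p)) q ≠ 0 →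
      J.lam q ^ N = J.lam p ^ N := by
    refine ⟨∏ l ∈ S, j l.1 l.2, Finset.prod_pos fun l hl => ?_, fun p q hpq => ?_⟩
    · exact hj0 _ _ (Finset.mem_filter.1 hl).2
    · obtain ⟨i, hi⟩ := Finset.dvd_prod_of_mem (fun l : J.ι × J.ι => j l.1 l.2)
        (show (p, q) ∈ S from Finset.mem_filter.2 ⟨Finset.mem_univ _, hpq⟩)
      rw [hi, pow_mul, pow_mul, hj p q hpq]
  refine ⟨N, hN0, ?_⟩
  have h2 : Commute m (J.op (fun c => c ^ N • 1)) := by
    refine J.e.ext fun p => ?_
    rw [Module.End.mul_apply, Module.End.mul_apply, J.op_on _ (J.mem p), LinearMap.smul_apply,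
      Module.End.one_apply, map_smul]
    conv_lhs => rw [← J.e.sum_repr (m (J.e p))]
    conv_rhs => rw [← J.e.sum_repr (m (J.e p))]
    rw [map_sum, Finset.smul_sum]
    refine Finset.sum_congr rfl fun q _ => ?_
    rw [map_smul, J.op_on _ (J.mem q), LinearMap.smul_apply, Module.End.one_apply, smul_comm]
    by_cases h0 : J.e.repr (m (J.e p)) q = 0
    · simp only [h0, zero_smul]
    · rw [hN p q h0]
  have h3 : Commute m J.un := by
    have h4 := comm_of_lg (un_nil J hG) hm'
    have h5 : J.un = (J.un - 1) + 1 := by abel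
    rw [h5]
    exact h4.add_right (Commute.one_right m)
  have h4 : G ^ N = J.un ^ N * J.op (fun c => c ^ N • 1) := by
    refine J.e.ext fun p => ?_
    rw [Module.End.mul_apply, J.op_on _ (J.mem p), LinearMap.smul_apply, Module.End.one_apply,
      map_smul, J.un_pow N (J.mem p), smul_smul, inv_pow, mul_inv_cancel₀ (pow_ne_zero N (hG p)),
      one_smul]
  rw [h4]
  exact (h3.pow_right N).mul_right h2

end closed

section ext

variable {k Ω : Type} [Field k] [CharZero k] [Field Ω] [CharZero Ω] [Algebra k Ω] [IsAlgClosed Ω]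
  {V Γ : Type} [AddCommGroup V] [Module k V] [FiniteDimensional k V] [Group Γ]
  {ρ : Representation k Γ V} {χ : Γ →* k}

theorem comm_kills {m : Module.End k V} (hm : ∀ z ∈ lieT ρ χ, m * z = z * m)
    {y : Module.End Ω (Ω ⊗[k] V)}
    (hy : ∀ (j : ℕ) (φ : MultilinearMap k (fun _ : Fin j × Fin 2 => V) k), IsTate ρ χ j φ →
      Kills y (bcm (Ω := Ω) (Module.finBasis k V) φ)) : Commute (m.baseChange Ω) y := by
  classical
  refine comm_oc (Basis.ofVectorSpace k Ω) fun i => hm _ ?_
  intro j φ hφ
  exact oc_kills _ (hy j φ hφ) i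

/-- **An operator that commutes with the Lie algebra commutes with a power of each element.** -/
theorem tors (Ω : Type) [Field Ω] [CharZero Ω] [Algebra k Ω] [IsAlgClosed Ω]
    {m : Module.End k V} (hm : ∀ z ∈ lieT ρ χ, m * z = z * m) (γ : Γ) :
    ∃ j : ℕ, 0 < j ∧ m * (ρ γ) ^ j = (ρ γ) ^ j * m := by
  classical
  have hχ0 : χ γ ≠ 0 := by
    intro h
    have h1 : χ γ * χ γ⁻¹ = 1 := by rw [← map_mul, mul_inv_cancel, map_one]
    rw [h, zero_mul] at h1
    exact zero_ne_one h1
  obtain ⟨δ, hδ⟩ := IsAlgClosed.exists_pow_nat_eq (algebraMap k Ω (χ γ)) (n := 2) (by norm_num)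
  have hδ0 : δ ≠ 0 := by
    intro h
    rw [h, zero_pow (by norm_num)] at hδ
    exact hχ0 ((map_eq_zero _).1 hδ.symm)
  obtain ⟨G, hG⟩ : ∃ G : Module.End Ω (Ω ⊗[k] V), G = δ⁻¹ • (ρ γ).baseChange Ω := ⟨_, rfl⟩
  have hGpow : ∀ M : ℕ, G ^ M = δ⁻¹ ^ M • ((ρ γ) ^ M).baseChange Ω := by
    intro M
    rw [hG, smul_pow, baseChange_pow]
  have hGφ : ∀ (j : ℕ) (φ : MultilinearMap k (fun _ : Fin j × Fin 2 => V) k), IsTate ρ χ j φ →
      ∃ M : ℕ, M ≠ 0 ∧ ∀ v, bcm (Ω := Ω) (Module.finBasis k V) φ (fun l => (G ^ M) (v l)) =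
        bcm (Ω := Ω) (Module.finBasis k V) φ v := by
    rintro j φ ⟨Δ, hΔ, hφ⟩
    obtain ⟨M, hM0, hM⟩ := exists_pow_mem Δ hΔ γ
    refine ⟨M, hM0, fun v => ?_⟩
    have h1 := hφ _ hM
    have h2 : (bcm (Ω := Ω) (Module.finBasis k V) φ).compLinearMap (fun _ => G ^ M) =
        bcm (Ω := Ω) (Module.finBasis k V) φ := by
      refine ext_one fun v => ?_
      rw [MultilinearMap.compLinearMap_apply, bcm_one]
      have h3 : (fun l => (G ^ M) ((1 : Ω) ⊗ₜ[k] v l)) =
          fun l => δ⁻¹ ^ M • ((1 : Ω) ⊗ₜ[k] (ρ (γ ^ M)) (v l)) := by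
        funext l
        rw [hGpow, LinearMap.smul_apply, LinearMap.baseChange_tmul, map_pow]
      rw [h3, MultilinearMap.map_smul_univ, bcm_one, h1, Finset.prod_const, Finset.card_univ,
        Fintype.card_prod, Fintype.card_fin, Fintype.card_fin, map_mul, map_pow, map_pow χ,
        map_pow, ← hδ, smul_eq_mul, ← mul_assoc]
      have h4 : (δ⁻¹ ^ M) ^ (j * 2) * ((δ ^ 2) ^ M) ^ j = 1 := by
        rw [← pow_mul, ← pow_mul, ← pow_mul, inv_pow]
        have h5 : M * (j * 2) = 2 * (M * j) := by ring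
        rw [h5, inv_mul_cancel₀ (pow_ne_zero _ hδ0)]
      rw [h4, one_mul]
    exact congrArg (fun F : MultilinearMap Ω (fun _ : Fin j × Fin 2 => Ω ⊗[k] V) Ω => F v) h2
  obtain ⟨J⟩ := exists_jb G
  have hinj : ∀ v, G v = 0 → v = 0 := by
    intro v hv
    have h1 : ((ρ γ⁻¹).baseChange Ω) (G v) = δ⁻¹ • v := by
      rw [hG, LinearMap.smul_apply, map_smul, ← Module.End.mul_apply, ← LinearMap.baseChange_mul,
        ← map_mul, inv_mul_cancel, map_one]
      congr 1
      exact LinearMap.congr_fun LinearMap.baseChange_id v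
    rw [hv, map_zero] at h1
    exact (smul_eq_zero.1 h1.symm).resolve_left (inv_ne_zero hδ0)
  have hlam : ∀ p, J.lam p ≠ 0 := lam_ne J hinj
  obtain ⟨j, hj, h⟩ := comm_pow (m := m.baseChange Ω) J hlam
    (fun a => comm_kills hm fun i φ hφ => by
      obtain ⟨M, hM0, hM⟩ := hGφ i φ hφ
      exact slope_kill J hM0 hM a)
    (comm_kills hm fun i φ hφ => by
      obtain ⟨M, hM0, hM⟩ := hGφ i φ hφ
      exact un_kill J hlam hM0 hM)
  refine ⟨j, hj, baseChange_inj (Ω := Ω) ?_⟩
  rw [LinearMap.baseChange_mul, LinearMap.baseChange_mul]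
  have h1 := h.eq
  rw [hGpow, mul_smul_comm, smul_mul_assoc] at h1
  exact smul_right_injective _ (pow_ne_zero j (inv_ne_zero hδ0)) h1

end ext

end

end Pool.Agent.E8helper1.CT
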