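import Mathlib
import Pool.Agent.E8helper1.CT.Tors
import Pool.Agent.E8helper1.CT.Neat

/-!
# The Tate forms of degree four determine the Lie algebra
-/

set_option autoImplicit false
set_option linter.unusedSectionVars false

namespace Pool.Agent.E8helper1.CT

open Module TensorProduct Pool.Agent.H204R3.SP Pool.Agent.H204R3.GP Pool.Agent.W522.U
  Pool.Agent.W528.Odd

section defs

variable {k V Γ : Type} [Field k] [AddCommGroup V] [Module k V] [Group Γ]

/-- The endomorphism `e` of the Tate module commutes with the action of a subgroup of finite index of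
the Galois group (by the theorem of Faltings, `e` is a combination of endomorphisms of the abelian
variety over the algebraic closure). -/
def IsPotentialEnd (ρ : Representation k Γ V) (e : Module.End k V) : Prop :=
  ∃ Δ : Subgroup Γ, Δ.FiniteIndex ∧ ∀ s ∈ Δ, ∀ v, e (ρ s v) = ρ s (e v)

/-- The abelian variety has no factors of type IV: an element of the centre of the algebra of
endomorphisms which is skew for the Weil pairing is zero. -/
def NoTypeFour (ρ : Representation k Γ V) (ω : V →ₗ[k] V →ₗ[k] k) : Prop :=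
  ∀ c, IsPotentialEnd ρ c → (∀ e, IsPotentialEnd ρ e → c * e = e * c) →
    (∀ u v, ω (c u) v = -ω u (c v)) → c = 0

end defs

variable {ℓ : ℕ} [hℓ : Fact ℓ.Prime] {V Γ : Type} [AddCommGroup V] [Module ℚ_[ℓ] V]
  [FiniteDimensional ℚ_[ℓ] V] [Group Γ] {ρ : Representation ℚ_[ℓ] Γ V} {χ : Γ →* ℚ_[ℓ]}
  {ω : V →ₗ[ℚ_[ℓ]] V →ₗ[ℚ_[ℓ]] ℚ_[ℓ]}

/-- **Core.** An operator that annihilates the Tate forms of degree four is the sum of an operator
that annihilates all Tate forms and a skew element of the centre of the algebra of endomorphisms. -/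
theorem core' (hnd : ∀ u, (∀ v, ω u v = 0) → u = 0)
    (hω : ∀ g u v, ω (ρ g u) (ρ g v) = χ g * ω u v) (hss : HasProj ρ) (hlat : HasLattice ℓ ρ)
    {x : Module.End ℚ_[ℓ] V} (hx : ∀ φ, IsTate ρ χ 2 φ → Kills x φ) :
    ∃ y ∈ lieT ρ χ, IsPotentialEnd ρ (x - y) ∧
      (∀ e, IsPotentialEnd ρ e → (x - y) * e = e * (x - y)) ∧
      ∀ u v, ω ((x - y) u) v = -ω u ((x - y) v) := by
  obtain ⟨y, hy, hm⟩ := four_split hnd hω hx hss
  have hy' : ∀ φ, IsTate ρ χ 2 φ → Kills y φ := fun φ hφ => hy 2 φ hφ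
  obtain ⟨Δ, hΔ, hneat⟩ := exists_neat hlat
  refine ⟨y, hy, ⟨Δ, hΔ, fun s hs v => ?_⟩, ?_, ?_⟩
  · obtain ⟨j, hj, h⟩ := tors (AlgebraicClosure ℚ_[ℓ]) hm s
    exact LinearMap.congr_fun (hneat s hs (x - y) j hj h) v
  · rintro e ⟨Δ', hΔ', he⟩
    rw [sub_mul, mul_sub, four_comm hnd hω hx hΔ' he, four_comm hnd hω hy' hΔ' he]
  · intro u v
    have e1 := four_skew hnd hω hx u v
    have e2 := four_skew hnd hω hy' u v
    rw [LinearMap.sub_apply, LinearMap.sub_apply, map_sub, map_sub, LinearMap.sub_apply]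
    linear_combination e1 - e2

/-- An operator that annihilates the Tate forms of degree four annihilates all Tate forms, if there
are no factors of type IV. -/
theorem core (hnd : ∀ u, (∀ v, ω u v = 0) → u = 0)
    (hω : ∀ g u v, ω (ρ g u) (ρ g v) = χ g * ω u v) (hss : HasProj ρ) (hlat : HasLattice ℓ ρ)
    (h4 : NoTypeFour ρ ω) {x : Module.End ℚ_[ℓ] V}
    (hx : ∀ φ, IsTate ρ χ 2 φ → Kills x φ) : x ∈ lieT ρ χ := by
  obtain ⟨y, hy, h1, h2, h3⟩ := core' hnd hω hss hlat hx
  rw [sub_eq_zero.1 (h4 (x - y) h1 h2 h3)]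
  exact hy

end Pool.Agent.E8helper1.CT
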