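import Mathlib
import Pool.Agent.E8helper1.CT.Core
import Pool.Agent.E8helper1.AP.Classes
import Pool.Agent.E8helper1.MTA.Defs

/-!
# Alternating forms on the powers and multilinear forms
-/

set_option autoImplicit false
set_option linter.unusedSectionVars false

namespace Pool.Agent.E8helper1.CT

open Module TensorProduct Pool.Agent.H204R3.SP Pool.Agent.H204R3.GP Pool.Agent.W522.U
  Pool.Agent.W528.Odd

variable {k V Γ : Type} [Field k] [CharZero k] [AddCommGroup V] [Module k V] [Group Γ]
  {ρ : Representation k Γ V} {χ : Γ →* k}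

/-- The operator `x` annihilates the form `F` on the power. -/
def Ann {n r : ℕ} (x : Module.End k V) (F : (Fin n → V) [⋀^Fin r]→ₗ[k] k) : Prop :=
  ∀ v : Fin r → Fin n → V, ∑ l, F (Function.update v l fun j => x (v l j)) = 0

/-- The form `F` on the power is a Tate class of codimension `m`. -/
def TateOn (ρ : Representation k Γ V) (χ : Γ →* k) {n r : ℕ} (m : ℕ)
    (F : (Fin n → V) [⋀^Fin r]→ₗ[k] k) : Prop :=
  ∃ Δ : Subgroup Γ, Δ.FiniteIndex ∧ ∀ s ∈ Δ, ∀ v : Fin r → Fin n → V,
    F (fun l j => ρ s (v l j)) = χ s ^ m * F v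

/-- The vectors supported in different coordinates. -/
def sg {m r : ℕ} (e : Fin m × Fin 2 ≃ Fin r) (u : Fin m × Fin 2 → V) : Fin r → Fin r → V :=
  fun l => Pi.single l (u (e.symm l))

theorem sg_ne {m r : ℕ} (e : Fin m × Fin 2 ≃ Fin r) (u : Fin m × Fin 2 → V) {l l' : Fin r}
    (h : l' ≠ l) : sg e u l' l = 0 := by
  unfold sg
  rw [Pi.single_eq_of_ne (Ne.symm h)]

theorem sg_self {m r : ℕ} (e : Fin m × Fin 2 ≃ Fin r) (u : Fin m × Fin 2 → V) (l : Fin r) :
    sg e u l l = u (e.symm l) := by
  unfold sg
  rw [Pi.single_eq_same]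

/-- An operator that annihilates the Tate classes on the power `A ^ (2 m)` of codimension `m` kills
the Tate forms. -/
theorem kills_of_ann {m r : ℕ} (e : Fin m × Fin 2 ≃ Fin r) {x : Module.End k V}
    (hx : ∀ F : (Fin r → V) [⋀^Fin r]→ₗ[k] k, TateOn ρ χ m F → Ann x F)
    {φ : MultilinearMap k (fun _ : Fin m × Fin 2 => V) k} (hφ : IsTate ρ χ m φ) : Kills x φ := by
  classical
  let G : MultilinearMap k (fun _ : Fin r => Fin r → V) k :=
    (φ.domDomCongr e).compLinearMap (fun l => LinearMap.proj l)
  have hG : ∀ v, G v = φ (fun p => v (e p) (e p)) := fun v => rfl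
  let f := MultilinearMap.alternatization G
  have hf : ∀ v, f v = ∑ σ : Equiv.Perm (Fin r), ((Equiv.Perm.sign σ : ℤ) : k) *
      φ (fun p => v (σ (e p)) (e p)) := by
    intro v
    simp only [f]
    rw [MultilinearMap.alternatization_apply]
    refine Finset.sum_congr rfl fun σ _ => ?_
    rw [Units.smul_def, zsmul_eq_mul]
    rfl
  have hT : TateOn ρ χ m f := by
    obtain ⟨Δ, hΔ, h⟩ := hφ
    refine ⟨Δ, hΔ, fun s hs v => ?_⟩
    rw [hf, hf, Finset.mul_sum]
    refine Finset.sum_congr rfl fun σ _ => ?_
    rw [h s hs (fun p => v (σ (e p)) (e p))]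
    ring
  have hsg : ∀ u, f (sg e u) = φ u := by
    intro u
    rw [hf, Finset.sum_eq_single 1]
    · rw [Equiv.Perm.sign_one, Units.val_one, Int.cast_one, one_mul]
      congr 1
      funext p
      rw [Equiv.Perm.one_apply, sg_self, Equiv.symm_apply_apply]
    · intro σ _ hσ
      obtain ⟨l, hl⟩ : ∃ l, σ l ≠ l := by
        by_contra hcon
        push Not at hcon
        exact hσ (Equiv.ext hcon)
      rw [φ.map_coord_zero (e.symm l) (by
        rw [Equiv.apply_symm_apply]
        exact sg_ne e u hl), mul_zero]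
    · intro h
      exact absurd (Finset.mem_univ _) h
  intro u
  have h1 := hx f hT (sg e u)
  rw [← h1]
  refine Fintype.sum_equiv e _ _ fun p => ?_
  rw [← hsg]
  congr 1
  funext l
  by_cases hl : l = e p
  · subst hl
    rw [Function.update_self]
    unfold sg
    rw [Equiv.symm_apply_apply, Function.update_self]
    funext j
    by_cases hj : j = e p
    · rw [hj, Pi.single_eq_same, Pi.single_eq_same]
    · rw [Pi.single_eq_of_ne hj, Pi.single_eq_of_ne hj, map_zero]
  · rw [Function.update_of_ne hl]
    unfold sg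
    rw [Function.update_of_ne (fun h => hl (by rw [← h, Equiv.apply_symm_apply]))]

/-- The elements of the Lie algebra annihilate the Tate classes on all powers. -/
theorem ann_of_lieT {x : Module.End k V} (hx : x ∈ lieT ρ χ) {n m r : ℕ}
    (e : Fin m × Fin 2 ≃ Fin r) {F : (Fin n → V) [⋀^Fin r]→ₗ[k] k} (hF : TateOn ρ χ m F) :
    Ann x F := by
  classical
  let fc : (Fin r → Fin n) → MultilinearMap k (fun _ : Fin m × Fin 2 => V) k := fun c =>
    (F.toMultilinearMap.compLinearMap
      (fun l => LinearMap.single k (fun _ : Fin n => V) (c l))).domDomCongr e.symm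
  have hfc0 : ∀ c u, fc c u = F fun l => Pi.single (c l) (u (e.symm l)) := fun c u => rfl
  have hfc : ∀ c, IsTate ρ χ m (fc c) := by
    intro c
    obtain ⟨Δ, hΔ, hF⟩ := hF
    refine ⟨Δ, hΔ, fun s hs v => ?_⟩
    have h1 := hF s hs (fun l => Pi.single (c l) (v (e.symm l)))
    rw [hfc0, hfc0, ← h1]
    congr 1
    funext l
    exact (AP.single_act ρ s (c l) (v (e.symm l))).symm
  have hsum : ∀ v : Fin r → Fin n → V, F v = ∑ c : Fin r → Fin n, fc c fun p => v (e p) (c (e p)) := by
    intro v
    have h1 : v = fun l => ∑ i, Pi.single i (v l i) := by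
      funext l
      exact (Finset.univ_sum_single (v l)).symm
    have h2 := F.toMultilinearMap.map_sum (fun l i => (Pi.single i (v l i) : Fin n → V))
    conv_lhs => rw [h1]
    change F.toMultilinearMap _ = _
    rw [h2]
    refine Finset.sum_congr rfl fun c _ => ?_
    rw [hfc0]
    change F _ = _
    congr 1
    funext l
    rw [Equiv.apply_symm_apply]
  intro v
  have h1 : ∀ l, F (Function.update v l fun j => x (v l j)) =
      ∑ c : Fin r → Fin n, fc c (Function.update (fun p => v (e p) (c (e p))) (e.symm l)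
        (x (v l (c l)))) := by
    intro l
    rw [hsum]
    refine Finset.sum_congr rfl fun c _ => ?_
    congr 1
    funext p
    by_cases hp : p = e.symm l
    · subst hp
      rw [Equiv.apply_symm_apply, Function.update_self, Function.update_self]
    · rw [Function.update_of_ne hp, Function.update_of_ne]
      intro h
      exact hp (by rw [← h, Equiv.symm_apply_apply])
  rw [Finset.sum_congr rfl (fun l _ => h1 l), Finset.sum_comm]
  refine Finset.sum_eq_zero fun c _ => ?_
  have h2 := hx m (fc c) (hfc c) (fun p => v (e p) (c (e p)))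
  rw [← h2]
  refine Fintype.sum_equiv e.symm _ _ fun l => ?_
  rw [Equiv.apply_symm_apply]

end Pool.Agent.E8helper1.CT
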