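import Mathlib
import Pool.Agent.E8helper1.CT.Alt
import Pool.Agent.E8helper1.MTA.Final

/-!
# Tate classes of codimension two and the Mumford-Tate conjecture
-/

set_option autoImplicit false
set_option linter.unusedSectionVars false

namespace Pool.Agent.E8helper1.CT

open Matrix Module TensorProduct Pool.Agent.H204R3.CM Pool.Agent.H204R3.SP Pool.Agent.H204R3.GP
  Pool.Agent.W437.HC Pool.Agent.W516.MTD Pool.Agent.E8helper1.NU
open Pool.Agent.Y126.Notions (PotentiallySemisimple)

/-- Invariant subspaces have equivariant projections. -/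
theorem hasProj_of {k V Γ : Type} [Field k] [AddCommGroup V] [Module k V] [Group Γ]
    {ρ : Representation k Γ V} (h : PotentiallySemisimple ρ) : HasProj ρ := by
  intro Δ hΔ U hU
  obtain ⟨U', hU', hc⟩ := h Δ hΔ U hU
  refine ⟨U.subtype ∘ₗ U.projectionOnto U' hc, fun v => Submodule.coe_mem _, fun u hu => ?_,
    fun s hs v => ?_⟩
  · rw [LinearMap.comp_apply, Submodule.projectionOnto_apply_left hc ⟨u, hu⟩]
    rfl
  · obtain ⟨a, b, rfl⟩ : ∃ (a : U) (b : U'), (a : V) + b = v := by
      have hv : v ∈ U ⊔ U' := by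
        rw [hc.sup_eq_top]
        exact Submodule.mem_top
      obtain ⟨a, ha, b, hb, rfl⟩ := Submodule.mem_sup.1 hv
      exact ⟨⟨a, ha⟩, ⟨b, hb⟩, rfl⟩
    have e : ∀ (a : U) (b : U'), (U.subtype ∘ₗ U.projectionOnto U' hc) ((a : V) + b) = a := by
      intro a b
      rw [LinearMap.comp_apply, map_add, Submodule.projectionOnto_apply_left hc a,
        Submodule.projectionOnto_apply_right hc b, add_zero]
      rfl
    rw [e a b, map_add]
    exact e ⟨ρ s a, hU s hs a a.2⟩ ⟨ρ s b, hU' s hs b b.2⟩

section defs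

variable {W T : Type} [AddCommGroup W] [Module ℚ W] [AddCommGroup T] [Module ℂ T]
  (K : Type) [Field K] [CharZero K]

/-- The span of the Hodge classes in the cohomology of degree `2 m` of `A ^ n`. -/
def hodgeSpan (per : W →+ T) (n m : ℕ) :
    Submodule K ((Fin n → K ⊗[ℚ] W) [⋀^Fin (2 * m)]→ₗ[K] K) :=
  Submodule.span K {f' | ∃ f : (Fin n → W) [⋀^Fin (2 * m)]→ₗ[ℚ] ℚ, IsHodge (pow per n) f ∧
    Compares f f'}

variable {K} {Γ : Type} [Group Γ]

/-- All Tate classes of codimension `m` on `A ^ n` are linear combinations of Hodge classes. -/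
def TateAreHodge (per : W →+ T) (ρ : Representation K Γ (K ⊗[ℚ] W)) (χ : Γ →* K) (n m : ℕ) :
    Prop :=
  ∀ F : (Fin n → K ⊗[ℚ] W) [⋀^Fin (2 * m)]→ₗ[K] K, TateOn ρ χ m F → F ∈ hodgeSpan K per n m

/-- The theorem of Deligne: Hodge classes are Tate classes. -/
def HodgeAreTate (per : W →+ T) (ρ : Representation K Γ (K ⊗[ℚ] W)) (χ : Γ →* K) : Prop :=
  ∀ (n r : ℕ) (f : (Fin n → W) [⋀^Fin (2 * r)]→ₗ[ℚ] ℚ)
    (f' : (Fin n → K ⊗[ℚ] W) [⋀^Fin (2 * r)]→ₗ[K] K), IsHodge (pow per n) f → Compares f f' →
    TateOn ρ χ r f'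

/-- The theorem on centres (Vasiu, Ullmo-Yafaev), in terms of Lie algebras: an element of the centre
of `End(A) ⊗ K` which annihilates all Hodge classes on the powers of `A` annihilates all Tate classes
on the powers of `A`. -/
def TheoremOnCentres (per : W →+ T) (ρ : Representation K Γ (K ⊗[ℚ] W)) (χ : Γ →* K) : Prop :=
  ∀ X, IsPotentialEnd ρ X → (∀ Y, IsPotentialEnd ρ Y → X * Y = Y * X) →
    (∀ (n r : ℕ) (f : (Fin n → W) [⋀^Fin (2 * r)]→ₗ[ℚ] ℚ)
      (f' : (Fin n → K ⊗[ℚ] W) [⋀^Fin (2 * r)]→ₗ[K] K), IsHodge (pow per n) f → Compares f f' →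
      Ann X f') →
    ∀ (n m : ℕ) (F : (Fin n → K ⊗[ℚ] W) [⋀^Fin (2 * m)]→ₗ[K] K), TateOn ρ χ m F → Ann X F

end defs

section hodge

variable {W T : Type} [AddCommGroup W] [Module ℚ W] [AddCommGroup T] [Module ℂ T] {N n k : ℕ}
  {bT : Basis (Fin N) ℝ T} {per : W →+ T} {b0 : Basis (Fin N) ℚ W}
  (hb : ∀ i, bT i = per (b0 i))

/-- The coordinates on the power of the tangent space. -/
noncomputable def crT (bT : Basis (Fin N) ℝ T) (n : ℕ) : (Fin n → T) →ₗ[ℝ] (Fin n × Fin N → ℝ) where
  toFun u p := bT.repr (u p.1) p.2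
  map_add' := by
    intro u v
    funext p
    simp only [Pi.add_apply, map_add, Finsupp.add_apply]
  map_smul' := by
    intro a u
    funext p
    simp only [Pi.smul_apply, map_smul, Finsupp.smul_apply, RingHom.id_apply]

theorem crT_sum (x : Fin n × Fin N → ℝ) : crT bT n (∑ p, x p • basT bT n p) = x := by
  funext p
  change bT.repr ((∑ p, x p • basT bT n p) p.1) p.2 = x p
  rw [sum_basT, Basis.repr_sum_self bT (fun i => x (p.1, i))]

theorem crT_smul_I (u : Fin n → T) : crT bT n (Complex.I • u) = bd n (JM bT) *ᵥ crT bT n u := by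
  obtain ⟨x, rfl⟩ := exists_coord (bT := bT) u
  rw [I_smul_basT, crT_sum, crT_sum]

include hb

/-- A class killed by the complex structure is a Hodge class. -/
theorem isHodge_of_kill' (f : (Fin n → W) [⋀^Fin k]→ₗ[ℚ] ℚ)
    (h0 : act (bd n (JM bT)) (cst ℝ (coef b0 f)) = 0) : IsHodge (pow per n) f := by
  refine ⟨(evalM (cst ℝ (coef b0 f))).compLinearMap (fun _ => crT bT n), fun w => ?_,
    fun z hz u => ?_⟩
  · change evalF (cst ℝ (coef b0 f)) (fun l => crT bT n (pow per n (w l))) = _
    have h1 : ∀ l, crT bT n (pow per n (w l)) = fun p => ((b0.repr (w l p.1) p.2 : ℚ) : ℝ) := by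
      intro l
      funext p
      change bT.repr (per (w l p.1)) p.2 = _
      rw [per_sum per b0 (w l p.1)]
      have h3 : ∀ i, per (b0 i) = bT i := fun i => (hb i).symm
      simp only [h3]
      rw [Basis.repr_sum_self bT (fun i => ((b0.repr (w l p.1) i : ℚ) : ℝ))]
    have h2 := eval_eq f.toMultilinearMap (bas b0 n) (fun l p => b0.repr (w l p.1) p.2)
    have h3 : (fun l => ∑ p, b0.repr (w l p.1) p.2 • bas b0 n p) = w := by
      funext l j
      rw [Finset.sum_apply, Fintype.sum_prod_type, Finset.sum_eq_single j]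
      · have : ∀ i, (b0.repr (w l j) i • bas b0 n (j, i)) j = b0.repr (w l j) i • b0 i := by
          intro i
          rw [Pi.smul_apply]
          unfold bas
          rw [Pi.single_eq_same]
        simp only [this]
        exact b0.sum_repr _
      · intro j' _ hj
        refine Finset.sum_eq_zero fun i _ => ?_
        rw [Pi.smul_apply]
        unfold bas
        rw [Pi.single_eq_of_ne (Ne.symm hj), smul_zero]
      · intro h
        exact absurd (Finset.mem_univ _) h
    rw [h3] at h2
    have h4 : f.toMultilinearMap w = f w := rfl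
    rw [h4] at h2
    simp only [h1]
    rw [h2]
    unfold evalF
    push_cast
    rfl
  · change evalF (cst ℝ (coef b0 f)) (fun l => crT bT n (z • u l)) =
      evalF (cst ℝ (coef b0 f)) (fun l => crT bT n (u l))
    have hJ : bd n (JM bT) * bd n (JM bT) = -1 := by
      rw [← bd_mul, JM_sq, map_neg, bd_one]
    have hθ : z = Complex.cos z.arg + Complex.sin z.arg * Complex.I := by
      have := Complex.norm_mul_cos_add_sin_mul_I z
      rw [hz, Complex.ofReal_one, one_mul] at this
      exact this.symm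
    have h1 : (fun l => crT bT n (z • u l)) = fun l => Real.cos z.arg • crT bT n (u l) +
        Real.sin z.arg • (bd n (JM bT) *ᵥ crT bT n (u l)) := by
      funext l
      have h2 : z • u l = Real.cos z.arg • u l + Real.sin z.arg • (Complex.I • u l) := by
        conv_lhs => rw [hθ]
        rw [add_smul, mul_smul, ← Complex.ofReal_cos, ← Complex.ofReal_sin]
        rfl
      rw [h2, map_add, map_smul, map_smul, crT_smul_I]
    rw [h1, rotate_invariant hJ h0]

end hodge

section main

variable {ℓ : ℕ} [hℓ : Fact ℓ.Prime] {W T Γ : Type} [AddCommGroup W] [Module ℚ W]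
  [FiniteDimensional ℚ W] [AddCommGroup T] [Module ℂ T] [Group Γ]

/-- The Tate classes are linear combinations of Hodge classes as soon as the rational components of
the complex structure annihilate them. -/
theorem tate_mem_span {K : Type} [Field K] [CharZero K] {per : W →+ T}
    {b0 : Basis (Fin (finrank ℚ W)) ℚ W} {bT : Basis (Fin (finrank ℚ W)) ℝ T}
    (hb : ∀ i, bT i = per (b0 i)) {n m : ℕ} (F : (Fin n → K ⊗[ℚ] W) [⋀^Fin (2 * m)]→ₗ[K] K)
    (hann : ∀ lam : ℝ →ₗ[ℚ] ℚ,
      Ann ((Matrix.toLin b0 b0 ((JM bT).map lam)).baseChange K) F) : F ∈ hodgeSpan K per n m := by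
  classical
  have hM : ∀ (q : ℚ) (x : K), q • x = (q : K) • x := fun q x => by
    rw [Rat.smul_def, smul_eq_mul]
  obtain ⟨q, mu, y, hmu⟩ := MTA.exists_mu (restr F hM)
  set f : Fin q → (Fin n → W) [⋀^Fin (2 * m)]→ₗ[ℚ] ℚ := fun j =>
    (mu j).compAlternatingMap (restr F hM) with hf
  have hfc : ∀ (lam : ℝ →ₗ[ℚ] ℚ) (j : Fin q),
      act (bd n ((JM bT).map lam)) (coef b0 (f j)) = 0 := by
    intro lam j
    funext I
    have h1 := hann lam (fun l => inc K W n (bas b0 n (I l)))
    have h2 : ∀ l, F (Function.update (fun l => inc K W n (bas b0 n (I l))) l fun j =>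
        (Matrix.toLin b0 b0 ((JM bT).map lam)).baseChange K (inc K W n (bas b0 n (I l)) j)) =
        ∑ p, bd n ((JM bT).map lam) p (I l) • restr F hM (fun l' => bas b0 n
          (Function.update I l p l')) := by
      intro l
      have h3 : (fun j => (Matrix.toLin b0 b0 ((JM bT).map lam)).baseChange K
          (inc K W n (bas b0 n (I l)) j)) =
          inc K W n (fun j => Matrix.toLin b0 b0 ((JM bT).map lam) (bas b0 n (I l) j)) := by
        funext j
        rw [inc_apply, inc_apply, LinearMap.baseChange_tmul]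
      have h4 : Function.update (fun l => inc K W n (bas b0 n (I l))) l
          (inc K W n (fun j => Matrix.toLin b0 b0 ((JM bT).map lam) (bas b0 n (I l) j))) =
          fun l' => inc K W n (Function.update (fun l => bas b0 n (I l)) l
            (fun j => Matrix.toLin b0 b0 ((JM bT).map lam) (bas b0 n (I l) j)) l') := by
        funext l'
        by_cases hl : l' = l
        · subst hl
          rw [Function.update_self, Function.update_self]
        · rw [Function.update_of_ne hl, Function.update_of_ne hl]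
      rw [h3, h4]
      change restr F hM (Function.update (fun l => bas b0 n (I l)) l
            (fun j => Matrix.toLin b0 b0 ((JM bT).map lam) (bas b0 n (I l) j))) = _
      rw [MTA.toLin_bas, AlternatingMap.map_update_sum]
      refine Finset.sum_congr rfl fun p _ => ?_
      rw [AlternatingMap.map_update_smul]
      congr 2
      funext l'
      by_cases hl : l' = l
      · subst hl
        rw [Function.update_self, Function.update_self]
      · rw [Function.update_of_ne hl, Function.update_of_ne hl]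
    rw [Finset.sum_congr rfl (fun l _ => h2 l)] at h1
    have h3 := congrArg (mu j) h1
    rw [map_zero, map_sum] at h3
    unfold act
    rw [Pi.zero_apply]
    refine Eq.trans ?_ h3
    refine Finset.sum_congr rfl fun l _ => ?_
    rw [map_sum]
    refine Finset.sum_congr rfl fun p _ => ?_
    rw [map_smul, smul_eq_mul]
    rfl
  have hHodge : ∀ j, IsHodge (pow per n) (f j) := by
    intro j
    refine isHodge_of_kill' hb (f j) ?_
    funext I
    refine eq_zero_of_lam fun lam => ?_
    rw [lam_act, bd_map]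
    exact congrFun (hfc lam j) I
  have hsum : F = ∑ j, y j • NU.extend K (f j) := by
    refine ext_of_rat fun w => ?_
    have h2 : F (fun l => inc K W n (w l)) = restr F hM w := rfl
    rw [h2, hmu w]
    have h3 : ∀ (s : Finset (Fin q)), (∑ j ∈ s, y j • NU.extend K (f j))
        (fun l => inc K W n (w l)) = ∑ j ∈ s, mu j (restr F hM w) • y j := by
      intro s
      induction s using Finset.induction_on with
      | empty => rfl
      | insert j s hj ih =>
        rw [Finset.sum_insert hj, Finset.sum_insert hj, AlternatingMap.add_apply, ih]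
        congr 1
        rw [AlternatingMap.smul_apply]
        have h4 := compares_extend (K := K) (f j) w
        change NU.extend K (f j) (fun l => inc K W n (w l)) = _ at h4
        rw [h4, hM, smul_eq_mul, smul_eq_mul, mul_comm]
        rfl
    exact (h3 _).symm
  rw [hsum]
  exact Submodule.sum_mem _ fun j _ => Submodule.smul_mem _ _ (Submodule.subset_span
    ⟨f j, hHodge j, compares_extend _⟩)

/-- The rational components of the complex structure annihilate the Hodge classes. -/
theorem ann_of_hodge {K : Type} [Field K] [CharZero K] {per : W →+ T}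
    {b0 : Basis (Fin (finrank ℚ W)) ℚ W} {bT : Basis (Fin (finrank ℚ W)) ℝ T}
    (hb : ∀ i, bT i = per (b0 i)) {n r : ℕ} {f : (Fin n → W) [⋀^Fin r]→ₗ[ℚ] ℚ}
    {f' : (Fin n → K ⊗[ℚ] W) [⋀^Fin r]→ₗ[K] K} (hf : IsHodge (pow per n) f)
    (hff : Compares f f') (lam : ℝ →ₗ[ℚ] ℚ) :
    Ann ((Matrix.toLin b0 b0 ((JM bT).map lam)).baseChange K) f' := by
  have h1 : act (bd n ((JM bT).map lam)) (coef b0 f) = 0 := by
    funext I
    rw [← bd_map, ← lam_act, MTA.kill_of_isHodge hb hf]
    exact map_zero lam
  exact MTA.annihilates_of_act b0 _ hff h1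

theorem ann_span {K : Type} [Field K] [CharZero K] {per : W →+ T}
    {b0 : Basis (Fin (finrank ℚ W)) ℚ W} {bT : Basis (Fin (finrank ℚ W)) ℝ T}
    (hb : ∀ i, bT i = per (b0 i)) {n m : ℕ} {F : (Fin n → K ⊗[ℚ] W) [⋀^Fin (2 * m)]→ₗ[K] K}
    (hF : F ∈ hodgeSpan K per n m) (lam : ℝ →ₗ[ℚ] ℚ) :
    Ann ((Matrix.toLin b0 b0 ((JM bT).map lam)).baseChange K) F := by
  induction hF using Submodule.span_induction with
  | mem g hg =>
    obtain ⟨f, hf, hff⟩ := hg
    exact ann_of_hodge hb hf hff lam
  | zero =>
    intro v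
    exact Finset.sum_eq_zero fun _ _ => rfl
  | add a b _ _ ha hb' =>
    intro v
    have h : ∀ l, (a + b) (Function.update v l fun j =>
        (Matrix.toLin b0 b0 ((JM bT).map lam)).baseChange K (v l j)) = a _ + b _ := fun l => rfl
    rw [Finset.sum_congr rfl (fun l _ => h l), Finset.sum_add_distrib, ha v, hb' v, add_zero]
  | smul c a _ ha =>
    intro v
    have h : ∀ l, (c • a) (Function.update v l fun j =>
        (Matrix.toLin b0 b0 ((JM bT).map lam)).baseChange K (v l j)) = c * a _ := fun l => rfl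
    rw [Finset.sum_congr rfl (fun l _ => h l), ← Finset.mul_sum, ha v, mul_zero]

/-- **Main theorem.** -/
theorem main_mt {per : W →+ T} (hper : IsRationalStructure per)
    {ρ : Representation ℚ_[ℓ] Γ (ℚ_[ℓ] ⊗[ℚ] W)} {χ : Γ →* ℚ_[ℓ]}
    {ω : (ℚ_[ℓ] ⊗[ℚ] W) →ₗ[ℚ_[ℓ]] (ℚ_[ℓ] ⊗[ℚ] W) →ₗ[ℚ_[ℓ]] ℚ_[ℓ]}
    (hnd : ∀ u, (∀ v, ω u v = 0) → u = 0) (hω : ∀ g u v, ω (ρ g u) (ρ g v) = χ g * ω u v)
    (hss : PotentiallySemisimple ρ) (hlat : HasLattice ℓ ρ)
    (hC : NoTypeFour ρ ω ∨ (HodgeAreTate per ρ χ ∧ TheoremOnCentres per ρ χ))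
    (h : TateAreHodge per ρ χ 4 2) (n m : ℕ) : TateAreHodge per ρ χ n m := by
  intro F hF
  let b0 : Basis (Fin (finrank ℚ W)) ℚ W := Module.finBasis ℚ W
  obtain ⟨bT, hb⟩ := exists_real_basis hper b0
  have e : ∀ m, Fin m × Fin 2 ≃ Fin (2 * m) := fun m =>
    (Equiv.prodComm _ _).trans finProdFinEquiv
  refine tate_mem_span hb F fun lam => ?_
  set x := (Matrix.toLin b0 b0 ((JM bT).map lam)).baseChange ℚ_[ℓ] with hx
  have h1 : ∀ φ, IsTate ρ χ 2 φ → Kills x φ := by
    intro φ hφ
    refine kills_of_ann (e 2) (fun F hF => ?_) hφ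
    exact ann_span hb (h F hF) lam
  obtain ⟨y, hy, h2, h3, h4⟩ := core' hnd hω (hasProj_of hss) hlat h1
  have h5 : Ann (x - y) F := by
    rcases hC with h6 | ⟨h6, h7⟩
    · rw [h6 (x - y) h2 h3 h4]
      intro v
      refine Finset.sum_eq_zero fun l _ => ?_
      refine F.toMultilinearMap.map_coord_zero l ?_
      rw [Function.update_self]
      rfl
    · refine h7 (x - y) h2 h3 ?_ n m F hF
      intro n r f f' hf hff
      have h8 := ann_of_hodge hb hf hff lam
      have h9 := ann_of_lieT hy (e r) (h6 n r f f' hf hff)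
      intro v
      have h10 : ∀ l, f' (Function.update v l fun j => (x - y) (v l j)) =
          f' (Function.update v l fun j => x (v l j)) -
            f' (Function.update v l fun j => y (v l j)) := by
        intro l
        have : (fun j => (x - y) (v l j)) = (fun j => x (v l j)) - fun j => y (v l j) := rfl
        rw [this, AlternatingMap.map_update_sub]
      rw [Finset.sum_congr rfl (fun l _ => h10 l), Finset.sum_sub_distrib, h8 v, h9 v, sub_zero]
  have h6 := ann_of_lieT hy (e m) hF
  intro v
  have h10 : ∀ l, F (Function.update v l fun j => x (v l j)) =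
      F (Function.update v l fun j => (x - y) (v l j)) +
        F (Function.update v l fun j => y (v l j)) := by
    intro l
    have : (fun j => x (v l j)) = (fun j => (x - y) (v l j)) + fun j => y (v l j) := by
      funext j
      rw [Pi.add_apply, LinearMap.sub_apply, sub_add_cancel]
    rw [this, AlternatingMap.map_update_add]
  rw [Finset.sum_congr rfl (fun l _ => h10 l), Finset.sum_add_distrib, h5 v, h6 v, add_zero]

end main

end Pool.Agent.E8helper1.CT
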